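import Pool.Agent.Q191.SH.Two3
import Pool.Agent.Q191.LB.RegL

/-!
# Twist regions of two strands with circles: words
-/

set_option autoImplicit false

namespace Pool.Agent.Q191.SH

open Matrix Finset Filter Topology
open Pool.Agent.W709.QAT (Piece run jones)
open Pool.Agent.W715.VC (rt)
open Pool.Agent.H550R3.Jones (br crossP crossN)
open Pool.Agent.Q191.FT
open Pool.Agent.Q191.LB
open GapVol (lob)
open scoped Real

variable {N : ℕ}

/-- `p` circles around the strands `i`, `i + 1`, and `m` crossings of these strands -/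
def aw (i : ℕ) (σ : Bool) (m p : ℕ) : List Piece := circs i 2 p ++ [Piece.twist i σ m]

theorem act_tw (v : ℂ) (j m : ℕ) (σ : Bool) (f : List (Fin N) → ℂ) :
    run N v [Piece.twist j σ m] f = op ((cx σ N v) ^ m) j f := by
  funext s
  change Piece.act N v (.twist j σ m) f s = _
  simp only [Piece.act, op, cx]
  rcases s.drop j with _ | ⟨a, _ | ⟨b, r⟩⟩ <;> rfl

theorem last2_C2 (A : Matrix (Fin N × Fin N) (Fin N × Fin N) ℂ) :
    (last2 A : Matrix ((Tp N 0 × Fin N) × Fin N) ((Tp N 0 × Fin N) × Fin N) ℂ) = C2 A := by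
  funext x y
  have h : x.1.1 = y.1.1 := rfl
  exact if_pos h

theorem Rep_tw (v : ℂ) (i m : ℕ) (σ : Bool) :
    Rep i 2 (C2 (cx σ N v) ^ m) (run N v [Piece.twist i σ m]) := by
  have h := Rep_last2 (cx σ N v ^ m) i 0
  have e : (fun f => op ((cx σ N v) ^ m) (i + 0) f) = run N v [Piece.twist i σ m] := by
    funext f
    rw [act_tw]
    rfl
  rw [← C2_pow, ← last2_C2, ← e]
  exact h

theorem Rep_aw {v : ℂ} (hv : v ≠ 0) (hN : ∀ k : ℕ, 0 < k → k < N → br v k ≠ 0) (i : ℕ)
    (σ : Bool) (m p : ℕ) : Rep i 2 (X2 σ N m p v) (run N v (aw i σ m p)) := by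
  have h1 := (Rep_circs hv hN i 2 p).comp (Rep_tw v i m σ)
  have e : (fun f : List (Fin N) → ℂ => run N v [Piece.twist i σ m] (run N v (circs i 2 p) f)) =
      run N v (aw i σ m p) := by
    funext f
    unfold aw
    rw [run_append]
  rw [← e]
  exact h1

/-- bound of the operator of a twist region with circles -/
theorem aw_bound {v : ℂ} (hv : v ≠ 0) (hN : ∀ k : ℕ, 0 < k → k < N → br v k ≠ 0) (i : ℕ)
    (σ : Bool) (m p : ℕ) {w B : ℝ} (hw : 0 ≤ w) (hB : 0 ≤ B)
    (hA : ∀ s t : Tp N 2, ‖(X2 σ N m p v) s t‖ ≤ w)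
    {f : List (Fin N) → ℂ} (hf : ∀ s, ‖f s‖ ≤ B) (s : List (Fin N)) :
    ‖run N v (aw i σ m p) f s‖ ≤ B * ((N : ℝ) ^ 2 * w) := by
  rcases Nat.lt_or_ge s.length (i + 2) with hs | hs
  · have h0 : run N v (aw i σ m p) f s = 0 := by
      unfold aw
      rw [run_append, act_tw]
      exact op_short _ _ hs
    rw [h0, norm_zero]
    positivity
  · obtain ⟨y, hy⟩ := exists_toL (N := N) 2 ((s.drop i).take 2) (by
      rw [List.length_take, List.length_drop]
      omega)
    have e : s = s.take i ++ (toL 2 y ++ (s.drop i).drop 2) := by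
      rw [hy, List.take_append_drop, List.take_append_drop]
    have hl : (s.take i).length = i := by
      rw [List.length_take]; omega
    rw [e, Rep_aw hv hN i σ m p _ _ hl f y]
    refine (norm_sum_le _ _).trans ?_
    have h : ∀ q ∈ (univ : Finset (Tp N 2)), ‖(X2 σ N m p v) y q *
        f (s.take i ++ (toL 2 q ++ (s.drop i).drop 2))‖ ≤ w * B := by
      intro q _
      rw [norm_mul]
      exact mul_le_mul (hA y q) (hf _) (norm_nonneg _) hw
    refine (sum_le_sum h).trans ?_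
    rw [sum_const, card_univ, card_Tp, nsmul_eq_mul]
    push_cast
    exact le_of_eq (by ring)

/-- twist regions with circles -/
theorem aug_run (ε : ℝ) (hε : 0 < ε) : ∀ᶠ N : ℕ in atTop, ∀ (i : ℕ) (σ : Bool)
    (m p : ℕ) (f : List (Fin N) → ℂ) (B : ℝ), 0 ≤ B → (∀ s, ‖f s‖ ≤ B) → ∀ l,
    ‖run N (rt N) (aw i σ m p) f l‖ ≤
      B * ((N : ℝ) ^ (2 + p) * ((((m + p : ℕ) : ℝ) + 1) ^ 73 *
        Real.exp (N * (BS 2 / (2 * π) + ε)))) := by
  filter_upwards [aug_sharp ε hε] with N h i σ m p f B hB hf l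
  have hb := aw_bound (Pool.Agent.W613.QAT.rt_ne N) (Pool.Agent.W613.QAT.br_rt) i σ m p
    (w := (N : ℝ) ^ p * (((m + p : ℕ) : ℝ) + 1) ^ 73 * Real.exp (N * (BS 2 / (2 * π) + ε)))
    (by positivity) hB (fun s t => h σ m p s t) hf l
  refine hb.trans (le_of_eq ?_)
  rw [pow_add]
  ring

/-- belted regions, any number of strands -/
theorem belt_any (K : ℕ) (ε : ℝ) (hε : 0 < ε) : ∀ᶠ N : ℕ in atTop,
    ∀ (σ : Bool) (m p : ℕ) (s0 t0 : Tp N K), ‖XX σ N K m p (rt N) s0 t0‖ ≤
      (N : ℝ) ^ p * (((m + p : ℕ) : ℝ) + 1) ^ (24 * (K + 1) + 1) *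
        Real.exp (N * (BS K / (2 * π) + ε)) := by
  rcases Nat.lt_or_ge K 2 with hK | hK
  · refine Eventually.of_forall fun N σ m p s0 t0 => ?_
    have h := belt01 (N := N) (K := K) (by omega) σ m p s0 t0
    have h2 : (1 : ℝ) ≤ (((m + p : ℕ) : ℝ) + 1) ^ (24 * (K + 1) + 1) :=
      one_le_pow₀ (by have : (0 : ℝ) ≤ ((m + p : ℕ) : ℝ) := Nat.cast_nonneg _; linarith)
    have h3 : 1 ≤ Real.exp (N * (BS K / (2 * π) + ε)) := by
      apply Real.one_le_exp
      have := BS_nonneg K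
      have := Real.pi_pos
      positivity
    have h0 : (0 : ℝ) ≤ (N : ℝ) ^ p := by positivity
    calc ‖XX σ N K m p (rt N) s0 t0‖ ≤ (N : ℝ) ^ p * 1 * 1 := by linarith
      _ ≤ (N : ℝ) ^ p * (((m + p : ℕ) : ℝ) + 1) ^ (24 * (K + 1) + 1) *
        Real.exp (N * (BS K / (2 * π) + ε)) := by gcongr
  · exact belt_sharp K hK ε hε

theorem belt_all (K : ℕ) (ε : ℝ) (hε : 0 < ε) : ∀ᶠ N : ℕ in atTop, ∀ k, k ≤ K →
    ∀ (σ : Bool) (m p : ℕ) (s0 t0 : Tp N k), ‖XX σ N k m p (rt N) s0 t0‖ ≤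
      (N : ℝ) ^ p * (((m + p : ℕ) : ℝ) + 1) ^ (24 * (k + 1) + 1) *
        Real.exp (N * (BS k / (2 * π) + ε)) := by
  induction K with
  | zero =>
    filter_upwards [belt_any 0 ε hε] with N hN k hk
    obtain rfl : k = 0 := by omega
    exact hN
  | succ K ih =>
    filter_upwards [ih, belt_any (K + 1) ε hε] with N h1 h2 k hk
    rcases Nat.lt_or_ge K k with h | h
    · obtain rfl : k = K + 1 := by omega
      exact h2
    · exact h1 k h

/-- belted regions -/
theorem belt_run (K : ℕ) (ε : ℝ) (hε : 0 < ε) : ∀ᶠ N : ℕ in atTop, ∀ (i k : ℕ) (σ : Bool)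
    (m p : ℕ), k ≤ K → ∀ (f : List (Fin N) → ℂ) (B : ℝ), 0 ≤ B → (∀ s, ‖f s‖ ≤ B) → ∀ l,
    ‖run N (rt N) (bw i k σ m p) f l‖ ≤
      B * ((N : ℝ) ^ (k + p) * ((((m + p : ℕ) : ℝ) + 1) ^ (24 * (k + 1) + 1) *
        Real.exp (N * (BS k / (2 * π) + ε)))) := by
  filter_upwards [belt_all K ε hε, eventually_ge_atTop 1] with N h hN i k σ m p hk f B hB hf l
  have hN1 : (1 : ℝ) ≤ N := by exact_mod_cast hN
  have h1 : (1 : ℝ) ≤ (N : ℝ) ^ p := one_le_pow₀ hN1
  have h2 : (1 : ℝ) ≤ (((m + p : ℕ) : ℝ) + 1) ^ (24 * (k + 1) + 1) :=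
    one_le_pow₀ (by have : (0 : ℝ) ≤ ((m + p : ℕ) : ℝ) := Nat.cast_nonneg _; linarith)
  have h3 : 1 ≤ Real.exp (N * (BS k / (2 * π) + ε)) := by
    apply Real.one_le_exp
    have := BS_nonneg k
    have := Real.pi_pos
    positivity
  have hw : 1 ≤ (N : ℝ) ^ p * (((m + p : ℕ) : ℝ) + 1) ^ (24 * (k + 1) + 1) *
      Real.exp (N * (BS k / (2 * π) + ε)) := by
    have h4 := mul_le_mul h1 h2 zero_le_one (by linarith)
    rw [one_mul] at h4
    have h5 := mul_le_mul h4 h3 zero_le_one (by positivity)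
    rwa [one_mul] at h5
  have hb := bw_bound (Pool.Agent.W613.QAT.rt_ne N) (Pool.Agent.W613.QAT.br_rt) i k σ m p hN hw hB
    (fun s t => h k hk σ m p s t) hf l
  refine hb.trans (le_of_eq ?_)
  rw [pow_add]
  ring

/-! ### The system of regions -/

/-- the regions of a diagram -/
inductive RgS
  | basic (P : Piece)
  | bun (i r s : ℕ) (σ : Bool)
  | aug (i : ℕ) (σ : Bool) (m p : ℕ)
  | belt (i k : ℕ) (σ : Bool) (m p : ℕ)

/-- the pieces of a region -/
def RgS.word : RgS → List Piece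
  | .basic P => [P]
  | .bun i r s σ => cw σ (LB.bun i r s)
  | .aug i σ m p => aw i σ m p
  | .belt i k σ m p => bw i k σ m p

/-- the growth rate of a region -/
noncomputable def RgS.rate : RgS → ℝ
  | .basic P => brate P
  | .bun _ r s _ => cst r s
  | .aug _ _ _ _ => BS 2
  | .belt _ k _ _ _ => BS k

/-- the polynomial factor of a region -/
noncomputable def RgS.pf : RgS → ℝ
  | .basic P => bpf P
  | .bun _ _ _ _ => 1
  | .aug _ _ m p => (((m + p : ℕ) : ℝ) + 1) ^ 73
  | .belt _ k _ m p => (((m + p : ℕ) : ℝ) + 1) ^ (24 * (k + 1) + 1)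

/-- the power of `N` -/
def RgS.dg : RgS → ℕ
  | .basic _ => 2
  | .bun _ r s _ => r + s
  | .aug _ _ _ p => 2 + p
  | .belt _ k _ _ p => k + p

/-- the number of strands -/
def RgS.wd : RgS → ℕ
  | .basic _ => 0
  | .bun _ r s _ => r + s
  | .aug _ _ _ _ => 0
  | .belt _ k _ _ _ => k

/-- the system of the diagrams with bundle crossings and belted regions -/
noncomputable def SS : Sys RgS where
  word := RgS.word
  rate := RgS.rate
  pf := RgS.pf
  dg := RgS.dg
  wd := RgS.wd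
  rate_nonneg P := by
    cases P with
    | basic P => exact brate_nonneg P
    | bun i r s σ => exact cst_nonneg r s
    | aug i σ m p => exact BS_nonneg 2
    | belt i k σ m p => exact BS_nonneg k
  pf_one P := by
    cases P with
    | basic P => exact bpf_one P
    | bun i r s σ => exact le_rfl
    | aug i σ m p =>
      exact one_le_pow₀ (by have : (0 : ℝ) ≤ ((m + p : ℕ) : ℝ) := Nat.cast_nonneg _; linarith)
    | belt i k σ m p =>
      exact one_le_pow₀ (by have : (0 : ℝ) ≤ ((m + p : ℕ) : ℝ) := Nat.cast_nonneg _; linarith)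
  bound K ε hε := by
    filter_upwards [basic_bound ε hε, bun_bound K ε hε, belt_run K ε hε, aug_run ε hε] with N h1 h2
      h3 h4 P hP f B hB hf l
    cases P with
    | basic P => exact h1 P f B hB hf l
    | bun i r s σ =>
      have h := h2 i r s σ hP f B hB hf l
      change ‖run N (rt N) (cw σ (LB.bun i r s)) f l‖ ≤
        B * ((N : ℝ) ^ (r + s) * (1 * Real.exp (N * (cst r s / (2 * π) + ε))))
      rw [one_mul]
      exact h
    | aug i σ m p => exact h4 i σ m p f B hB hf l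
    | belt i k σ m p => exact h3 i k σ m p hP f B hB hf l

end Pool.Agent.Q191.SH
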