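import Pool.Agent.Q191.SH.Core

/-!
# Belted full twists, sharp bound
-/

set_option autoImplicit false

namespace Pool.Agent.Q191.SH

open Matrix Finset Filter Topology
open Pool.Agent.H550R3.Jones (WM IsMod IsInt Gen br brf tens irr nb R Rinv Rh Rhi crossP crossN ptr)
open Pool.Agent.H897R.J (HasWt gen_br gen_v br_neg br_zero wt_F)
open Pool.Agent.W715.VC (rt)
open GapVol (lob)
open Pool.Agent.Q191.FT
open Pool.Agent.Q191.LB
open scoped Real

theorem eight_le (ε : ℝ) (hε : 0 < ε) : ∀ᶠ N : ℕ in atTop, (8 : ℝ) ≤ Real.exp (ε * N) := by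
  have h := (Real.tendsto_exp_atTop.comp
    (tendsto_natCast_atTop_atTop.const_mul_atTop hε : Tendsto (fun N : ℕ => ε * (N : ℝ)) atTop atTop))
  exact h.eventually_ge_atTop 8

/-- **belted full twists, sharp bound** -/
theorem belt_sharp (K : ℕ) (hK : 2 ≤ K) (ε : ℝ) (hε : 0 < ε) : ∀ᶠ N : ℕ in atTop,
    ∀ (σ : Bool) (m p : ℕ) (s0 t0 : Tp N K), ‖XX σ N K m p (rt N) s0 t0‖ ≤
      (N : ℝ) ^ p * (((m + p : ℕ) : ℝ) + 1) ^ (24 * (K + 1) + 1) *
        Real.exp (N * (BS K / (2 * π) + ε)) := by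
  have hpi := Real.pi_pos
  filter_upwards [core K hK (ε / 2) (by positivity), eight_le (ε / 2) (by positivity),
    eventually_ge_atTop 2] with N hcore h8 hN2 σ m p s0 t0
  have hv := Pool.Agent.W613.QAT.rt_ne N
  have hN : ∀ k : ℕ, 0 < k → k < N → br (rt N) k ≠ 0 := Pool.Agent.W613.QAT.br_rt
  have h := hcore (m + p) (8 * (N : ℝ) ^ p) (by positivity) (fun w => XX σ N K m p w)
    (fun v => ff K N (sg σ) m p v) s0 t0
    (XX_diff hv hN σ K m p s0 t0).continuousAt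
    (fun u hu => X_sc hu σ N K m p)
    (fun l _ => by
      obtain ⟨G, hG, hG2⟩ := RegF.ff K N (sg_or σ) m p (cw0 N K t0) (cw0_par K t0) l
      refine ⟨G, fun ρ hρ v hv => ?_, hG2⟩
      have h1 := (near_ne hρ (mem_closedBall_iff_norm.1 hv)).1
      exact (hG.differentiableAt (zero_open.mem_nhds h1)).differentiableWithinAt)
    (fun ρ hρ v hv c hc hpar =>
      ff_bound hρ (Nat.le_add_right m p) (Nat.le_add_left p m) hv (sg_or σ) hc hpar)
  refine h.trans ?_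
  have e1 : Real.exp (N * (BS K / (2 * π) + ε)) =
      Real.exp (ε / 2 * N) * Real.exp (N * (BS K / (2 * π) + ε / 2)) := by
    rw [← Real.exp_add]
    congr 1
    ring
  rw [e1]
  have hE : 0 < Real.exp (N * (BS K / (2 * π) + ε / 2)) := Real.exp_pos _
  have hP : 0 ≤ (((m + p : ℕ) : ℝ) + 1) ^ (24 * (K + 1) + 1) := by positivity
  have hNp : 0 ≤ (N : ℝ) ^ p := by positivity
  calc 8 * (N : ℝ) ^ p * (((m + p : ℕ) : ℝ) + 1) ^ (24 * (K + 1) + 1) *
        Real.exp (N * (BS K / (2 * π) + ε / 2))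
      = 8 * ((N : ℝ) ^ p * (((m + p : ℕ) : ℝ) + 1) ^ (24 * (K + 1) + 1) *
        Real.exp (N * (BS K / (2 * π) + ε / 2))) := by ring
    _ ≤ Real.exp (ε / 2 * N) * ((N : ℝ) ^ p * (((m + p : ℕ) : ℝ) + 1) ^ (24 * (K + 1) + 1) *
        Real.exp (N * (BS K / (2 * π) + ε / 2))) := by gcongr
    _ = _ := by ring

end Pool.Agent.Q191.SH
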