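import Pool.Agent.Q191.SH.Blt

/-!
# Belts around at most one strand; the constants
-/

set_option autoImplicit false

namespace Pool.Agent.Q191.SH

open Matrix Finset Filter Topology
open scoped Kronecker
open Pool.Agent.H550R3.Jones (WM IsMod IsInt Gen br brf tens irr nb R Rinv Rh Rhi crossP crossN ptr)
open Pool.Agent.H897R.J (HasWt gen_br gen_v br_neg br_zero wt_F)
open Pool.Agent.W715.VC (rt)
open GapVol (lob)
open EvenVol.LobIneq (lob_nonneg)
open Pool.Agent.Q191.FT
open Pool.Agent.Q191.LB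
open scoped Real

theorem Cas_triv_tens {κ : Type} [Fintype κ] [DecidableEq κ] {v : ℂ} (V : WM κ) {c : ℤ}
    (h : Cas v V = lam v c • (1 : Matrix κ κ ℂ)) :
    Cas v (tens v triv V) = lam v c • (1 : Matrix (Unit × κ) (Unit × κ) ℂ) := by
  have hE : (tens v triv V).E = (1 : Matrix Unit Unit ℂ) ⊗ₖ V.E := by
    change triv.E ⊗ₖ V.K v 1 + (1 : Matrix Unit Unit ℂ) ⊗ₖ V.E = _
    have : triv.E = 0 := rfl
    rw [this, zero_kronecker, zero_add]
  have hF : (tens v triv V).F = (1 : Matrix Unit Unit ℂ) ⊗ₖ V.F := by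
    change triv.F ⊗ₖ (1 : Matrix κ κ ℂ) + triv.K v (-1) ⊗ₖ V.F = _
    have h1 : triv.F = 0 := rfl
    have h2 : triv.K v (-1) = 1 := by
      ext i j
      simp [WM.K, triv]
    rw [h1, h2, zero_kronecker, zero_add]
  ext ⟨a, i⟩ ⟨b, j⟩
  have h1 := congrFun (congrFun h i) j
  unfold Cas at h1 ⊢
  rw [hE, hF, ← mul_kronecker_mul, mul_one]
  rw [Matrix.add_apply, kroneckerMap_apply, diagonal_apply]
  rw [Matrix.add_apply, diagonal_apply] at h1
  have e : (tens v triv V).wt (a, i) = V.wt i := by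
    change triv.wt a + V.wt i = V.wt i
    change (0 : ℤ) + V.wt i = V.wt i
    rw [zero_add]
  have e1 : (1 : Matrix Unit Unit ℂ) (a, i).1 (b, j).1 = 1 := rfl
  have e2 : ((a, i) = (b, j)) ↔ i = j := by
    rw [Prod.mk.injEq]
    exact ⟨fun h => h.2, fun h => ⟨rfl, h⟩⟩
  have e3 : (1 : Matrix (Unit × κ) (Unit × κ) ℂ) (a, i) (b, j) = (1 : Matrix κ κ ℂ) i j := by
    rw [Matrix.one_apply, Matrix.one_apply]
    simp only [e2]
  rw [e, e1, one_mul, Matrix.smul_apply, e3, ← Matrix.smul_apply, ← h1]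
  simp only [e2]

theorem Cas_triv (v : ℂ) : Cas v triv = lam v 1 • (1 : Matrix Unit Unit ℂ) := by
  ext i j
  unfold Cas
  have h1 : triv.F = 0 := rfl
  rw [h1, Matrix.zero_mul, zero_add, Matrix.smul_apply, diagonal_apply, Matrix.one_apply]
  have h2 : triv.wt i + 1 = 1 := rfl
  have h3 : i = j := rfl
  rw [if_pos h3, if_pos h3, h2, smul_eq_mul, mul_one]

theorem Cas_01 {v : ℂ} (hv : v ≠ 0) (N : ℕ) {K : ℕ} (hK : K ≤ 1) :
    Cas v (MM v N K) = lam v (K * ((N : ℤ) - 1) + 1) • (1 : Matrix (Tp N K) (Tp N K) ℂ) := by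
  interval_cases K
  · have e : (((0 : ℕ) : ℤ)) * ((N : ℤ) - 1) + 1 = 1 := by ring
    rw [e]
    exact Cas_triv v
  · have e : (((1 : ℕ) : ℤ)) * ((N : ℤ) - 1) + 1 = N := by push_cast; ring
    rw [e]
    exact Cas_triv_tens (irr v N) (Cas_irr hv N)

theorem chi_norm (N : ℕ) (c : ℤ) : ‖chi (rt N) N c‖ ≤ N := by
  unfold chi
  rw [norm_mul, norm_pow, norm_neg, norm_one, one_pow, one_mul]
  refine (norm_sum_le _ _).trans ?_
  have h : ∀ x ∈ (univ : Finset (Fin N)), ‖(rt N) ^ (c * (irr (rt N) N).wt x)‖ ≤ 1 := by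
    intro x _
    rw [Pool.Agent.W715.VC.norm_rt_zpow]
  refine (sum_le_sum h).trans ?_
  rw [sum_const, card_univ, Fintype.card_fin, nsmul_eq_mul, mul_one]

theorem zpow_cont {v : ℂ} (hv : v ≠ 0) (e : ℤ) : ContinuousAt (fun w : ℂ => w ^ e) v :=
  continuousAt_zpow₀ v e (Or.inl hv)

theorem chi_cont {v : ℂ} (hv : v ≠ 0) (N : ℕ) (c : ℤ) : ContinuousAt (fun w => chi w N c) v := by
  unfold chi
  exact continuousAt_const.mul (tendsto_finsetSum _ fun x _ => zpow_cont hv _)

theorem ff_cont {v : ℂ} (hv : v ≠ 0) (K N : ℕ) (s : ℤ) (m p : ℕ) (c : ℤ) :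
    ContinuousAt (fun w => ff K N s m p w c) v := by
  unfold ff
  exact ((zpow_cont hv _).pow m).mul (((zpow_cont hv _).mul (chi_cont hv N c)).pow p)

theorem ff_rt (K N : ℕ) (s : ℤ) (m p : ℕ) (c : ℤ) : ‖ff K N s m p (rt N) c‖ ≤ (N : ℝ) ^ p := by
  unfold ff
  rw [norm_mul, norm_pow, norm_pow, norm_mul, Pool.Agent.W715.VC.norm_rt_zpow,
    Pool.Agent.W715.VC.norm_rt_zpow, one_pow, one_mul, one_mul]
  exact pow_le_pow_left₀ (norm_nonneg _) (chi_norm N c) p

/-- belts around at most one strand -/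
theorem belt01 {N K : ℕ} (hK : K ≤ 1) (σ : Bool) (m p : ℕ) (s0 t0 : Tp N K) :
    ‖XX σ N K m p (rt N) s0 t0‖ ≤ (N : ℝ) ^ p := by
  have hv := Pool.Agent.W613.QAT.rt_ne N
  have hN : ∀ k : ℕ, 0 < k → k < N → br (rt N) k ≠ 0 := Pool.Agent.W613.QAT.br_rt
  have h := lim_gen hv (F := fun w => ‖XX σ N K m p w s0 t0‖)
    (G := fun w => ‖ff K N (sg σ) m p w (K * ((N : ℤ) - 1) + 1)‖)
    (XX_diff hv hN σ K m p s0 t0).continuousAt.norm
    (ff_cont hv K N (sg σ) m p _).norm
    (fun u hu => by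
      have h1 := X_sc hu σ N K m p (K * ((N : ℤ) - 1) + 1) ⟨0, by ring⟩ (Pi.single t0 1) (by
        rw [Cas_01 (gen_v hu) N hK, smul_mulVec, one_mulVec])
      have h2 := congrFun h1 s0
      rw [mulVec_single_one, Pi.smul_apply, smul_eq_mul] at h2
      change XX σ N K m p (u ^ 2) s0 t0 = _ at h2
      beta_reduce
      rw [h2, norm_mul]
      have h3 : ‖(Pi.single t0 (1 : ℂ) : Tp N K → ℂ) s0‖ ≤ 1 := by
        rw [Pi.single_apply]
        split_ifs <;> simp
      have h4 := norm_nonneg (ff K N (sg σ) m p (u ^ 2) (K * ((N : ℤ) - 1) + 1))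
      nlinarith)
  exact h.trans (ff_rt K N (sg σ) m p _)

/-! ### The constants -/

theorem BS_two : BS 2 = 30 * lob (π / 3) := by
  have h := GapVol.lob_dup
  unfold BS phi
  have e : π / 2 - π / (((2 : ℕ) : ℝ) + 1) = π / 6 := by push_cast; ring
  have e2 : π / (((2 : ℕ) : ℝ) + 1) = π / 3 := by push_cast; ring
  rw [e, e2]
  push_cast
  linarith

theorem BS_three : BS 3 = 4 * (8 * lob (π / 4)) := by
  unfold BS phi
  have e : π / 2 - π / (((3 : ℕ) : ℝ) + 1) = π / 4 := by push_cast; ring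
  have e2 : π / (((3 : ℕ) : ℝ) + 1) = π / 4 := by push_cast; ring
  rw [e, e2]
  push_cast
  ring

theorem BS_le (k : ℕ) (hk : 1 ≤ k) : BS k ≤ (k + 1) * (8 * lob (π / 4)) := by
  have hpi := Real.pi_pos
  have hkR : (1 : ℝ) ≤ k := by exact_mod_cast hk
  have h1 : π / ((k : ℝ) + 1) ≤ π / 2 := by gcongr; linarith
  have h0 : 0 ≤ π / ((k : ℝ) + 1) := by positivity
  have h := lob_conc' (x := π / ((k : ℝ) + 1)) (y := π / 2 - π / ((k : ℝ) + 1)) h0
    (by linarith) (by linarith)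
  have e : (π / ((k : ℝ) + 1) + (π / 2 - π / ((k : ℝ) + 1))) / 2 = π / 4 := by ring
  rw [e] at h
  unfold BS phi
  have h2 : 4 * ((k : ℝ) + 1) * (lob (π / (k + 1)) + lob (π / 2 - π / (k + 1))) ≤
      4 * ((k : ℝ) + 1) * (2 * lob (π / 4)) := by gcongr
  linarith

theorem lob_half_sub {x : ℝ} (h0 : 0 ≤ x) (h1 : x ≤ π / 2) : lob (π / 2 - x) ≤ x * Real.log 2 := by
  have hpi := Real.pi_pos
  -- the tangent plane at the triangle `π/4, π/4, π/2`
  have t := tan_plane (θ := π / 4) (by positivity) (by linarith) (x := x) (y := π / 2)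
    (z := π / 2 - x) h0 (by positivity) (by linarith) (by ring)
  -- monotonicity instead
  set φ : ℝ → ℝ := fun y => lob y - (π / 2 - y) * Real.log 2 with hφ
  have hcont : ContinuousOn φ (Set.Icc (π / 6) (π / 2)) :=
    (GapVol.lob_cont.sub ((continuous_const.sub continuous_id).mul continuous_const)).continuousOn
  have hmono : MonotoneOn (fun y : ℝ => lob y - (π / 2 - y) * Real.log 2) (Set.Icc 0 (π / 2)) := by
    refine monotoneOn_of_deriv_nonneg (convex_Icc _ _)
      (GapVol.lob_cont.sub ((continuous_const.sub continuous_id).mul continuous_const)).continuousOn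
      ?_ ?_
    · intro y hy
      rw [interior_Icc] at hy
      have := Pool.Agent.W120.VC.lob_deriv hy.1 (by linarith [hy.2])
      exact (this.sub (((hasDerivAt_id y).const_sub (π / 2)).mul_const _)).differentiableAt.differentiableWithinAt
    · intro y hy
      rw [interior_Icc] at hy
      have hd := (Pool.Agent.W120.VC.lob_deriv hy.1 (by linarith [hy.2])).sub
        (((hasDerivAt_id y).const_sub (π / 2)).mul_const (Real.log 2))
      have he : deriv (fun y : ℝ => lob y - (π / 2 - y) * Real.log 2) y =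
          -Real.log (2 * Real.sin y) - -1 * Real.log 2 := hd.deriv
      rw [he]
      have hs : 0 < Real.sin y := Real.sin_pos_of_pos_of_lt_pi hy.1 (by linarith [hy.2])
      have := Real.log_le_log (by positivity : 0 < 2 * Real.sin y)
        (by linarith [Real.sin_le_one y] : 2 * Real.sin y ≤ 2)
      linarith
  have h2 := hmono (a := π / 2 - x) (b := π / 2) ⟨by linarith, by linarith⟩
    ⟨by positivity, le_rfl⟩ (by linarith)
  beta_reduce at h2
  rw [GapVol.lob_half] at h2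
  have e : π / 2 - (π / 2 - x) = x := by ring
  rw [e] at h2
  linarith

theorem BS_log (k : ℕ) (hk : 1 ≤ k) : BS k ≤ 4 * π * Real.log (k + 1) + 4 := by
  have hpi := Real.pi_pos
  have hkR : (1 : ℝ) ≤ k := by exact_mod_cast hk
  have h1 : π / ((k : ℝ) + 1) ≤ π / 2 := by gcongr; linarith
  have h0 : 0 < π / ((k : ℝ) + 1) := by positivity
  have a1 := lob_le_log h0 h1
  have a2 := lob_half_sub h0.le h1
  have e1 : 4 * (π / ((k : ℝ) + 1)) / π = 4 / (k + 1) := by field_simp
  have e2 : Real.log (4 / ((k : ℝ) + 1)) = 2 * Real.log 2 - Real.log (k + 1) := by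
    rw [Real.log_div (by norm_num) (by positivity)]
    have : (4 : ℝ) = 2 ^ 2 := by norm_num
    rw [this, Real.log_pow]
    norm_num
  rw [e1, e2] at a1
  unfold BS phi
  have h3 : 4 * ((k : ℝ) + 1) * (lob (π / (k + 1)) + lob (π / 2 - π / (k + 1))) ≤
      4 * ((k : ℝ) + 1) * (π / (k + 1) * (1 - (2 * Real.log 2 - Real.log (k + 1))) +
        π / (k + 1) * Real.log 2) := by
    gcongr
  refine h3.trans ?_
  have e3 : 4 * ((k : ℝ) + 1) * (π / (k + 1) * (1 - (2 * Real.log 2 - Real.log (k + 1))) +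
      π / (k + 1) * Real.log 2) = 4 * π * Real.log (k + 1) + 4 * (π * (1 - Real.log 2)) := by
    field_simp
    ring
  rw [e3]
  have h4 := Real.log_two_gt_d9
  have h5 := Real.pi_lt_d2
  nlinarith

end Pool.Agent.Q191.SH
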