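import Pool.Agent.Q191.SH.Ent3

/-!
# The sharp bound of the entries
-/

set_option autoImplicit false

namespace Pool.Agent.Q191.SH

open Matrix Finset Filter Topology
open Pool.Agent.H550R3.Jones (WM IsMod IsInt Gen br brf tens irr nb R Rinv Rh Rhi crossP crossN ptr)
open Pool.Agent.H897R.J (HasWt gen_br gen_v br_neg br_zero wt_F)
open Pool.Agent.W715.VC (rt)
open GapVol (lob)
open Pool.Agent.Q191.FT
open Pool.Agent.Q191.LB
open scoped Real

variable {N : ℕ}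

/-- the cost of a belted region -/
noncomputable def BS (k : ℕ) : ℝ := 4 * (k + 1) * phi (π / (k + 1))

theorem potK (hN : 0 < N) {K : ℕ} (hK : 2 ≤ K) {s t r : Tp N K} (hs : Bel K s r) (ht : Bel K t r)
    {l : ℕ} (hsl : ds K s = ds K r + l) (htl : ds K t = ds K r + l) (hl : l ≤ N) {μ : ℕ}
    (hμ : μ + 2 * (ds K r + l) ≤ K * N) (hpar : (2 : ℤ) ∣ (μ : ℤ) - K * ((N : ℤ) - 1))
    {i : ℕ} (hi : i ≤ l) :
    WW N μ i l + TS K s r + TS K t r ≤ BS K / 2 := by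
  rcases Nat.lt_or_ge 2 K with h | h
  · refine (pot3 hN h hs ht hsl htl hl hμ hi).trans (le_of_eq ?_)
    unfold BS
    ring
  · obtain rfl : K = 2 := by omega
    obtain ⟨c, hc⟩ := hpar
    obtain ⟨h', rfl⟩ : ∃ h' : ℕ, μ = 2 * h' := ⟨μ / 2, by push_cast at hc; omega⟩
    refine (pot2 hN hs ht hsl htl (by omega) hi).trans (le_of_eq ?_)
    have h3 := phi_three
    unfold BS
    norm_num
    linarith

/-- the bound of a term -/
theorem term_bd {K M : ℕ} {ρ η Θ ε1 : ℝ} (h : Rad K M N ρ) (hK : 2 ≤ K) (hΘ0 : 0 ≤ Θ)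
    (hroot : ∀ v : ℂ, ‖v - rt N‖ = ρ → ∀ n : ℕ, 0 < n → v ^ n ≠ 1)
    (hη : ∀ v : ℂ, ‖v - rt N‖ = ρ → ∀ n, n ≤ 4 * (K + 1) * N →
      |Real.log ‖brf v n‖ + N / π * lob (π * n / N)| ≤ η)
    (hph : ∀ (s r : Tp N K), phF (rt N) N K s r ≤ Real.exp (N / π * TS K s r + K * ε1 * N))
    {μ l : ℕ} (hμ : μ ≤ K * N) (hlN : l ≤ N) {f : ℂ → ℤ → ℂ} {G : ℂ → ℂ}
    (hG : DifferentiableOn ℂ G (Metric.closedBall (rt N) ρ))
    (hG2 : ∀ u : ℂ, Gen u → brf (u ^ 2) l * dd (f (u ^ 2)) (u ^ 2) μ l = G (u ^ 2))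
    (hf : ∀ v : ℂ, ‖v - rt N‖ = ρ → ∀ i, i ≤ l → ‖f v ((μ : ℤ) + 1 + 2 * (i : ℤ))‖ ≤ Θ)
    (hpar : (2 : ℤ) ∣ (μ : ℤ) - K * ((N : ℤ) - 1)) (s t r : Tp N K)
    (hsl : ds K s = ds K r + l) (htl : ds K t = ds K r + l)
    (hμ2 : μ + 2 * (ds K r + l) ≤ K * N) :
    ‖brf (rt N) l * G (rt N)‖ * (phF (rt N) N K s r * phF (rt N) N K t r) ≤
      (l + 1) * (Θ * (6 / ρ * Real.exp (N / π * (BS K / 2) + 6 * η + 2 * K * ε1 * N))) := by
  have hN1 := h.hN
  have hr0 := h.r0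
  have hE : 0 < Real.exp (N / π * (BS K / 2) + 6 * η + 2 * K * ε1 * N) := Real.exp_pos _
  by_cases h1 : phF (rt N) N K s r = 0
  · rw [h1, zero_mul, mul_zero]
    positivity
  by_cases h2 : phF (rt N) N K t r = 0
  · rw [h2, mul_zero, mul_zero]
    positivity
  have b1 := bel_of K s r h1
  have b2 := bel_of K t r h2
  have hB : ∀ i, i ≤ l → WW N μ i l ≤ BS K / 2 - TS K s r - TS K t r := by
    intro i hi
    have := potK (by omega) hK b1 b2 hsl htl hlN hμ2 hpar hi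
    linarith
  have g := G_B h hΘ0 hroot hη hμ (hlN.trans (by nlinarith)) hG hG2 hf hB
  have p1 := hph s r
  have p2 := hph t r
  have n1 := phF_nonneg (rt N) N K s r
  have n2 := phF_nonneg (rt N) N K t r
  calc ‖brf (rt N) l * G (rt N)‖ * (phF (rt N) N K s r * phF (rt N) N K t r)
      ≤ ((l + 1) * (Θ * (6 / ρ * Real.exp (N / π * (BS K / 2 - TS K s r - TS K t r) + 6 * η)))) *
        (Real.exp (N / π * TS K s r + K * ε1 * N) * Real.exp (N / π * TS K t r + K * ε1 * N)) := by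
        gcongr
    _ = (l + 1) * (Θ * (6 / ρ * (Real.exp (N / π * (BS K / 2 - TS K s r - TS K t r) + 6 * η) *
        (Real.exp (N / π * TS K s r + K * ε1 * N) *
          Real.exp (N / π * TS K t r + K * ε1 * N))))) := by ring
    _ = _ := by
        rw [← Real.exp_add, ← Real.exp_add]
        congr 4
        ring

theorem BS_nonneg (k : ℕ) : 0 ≤ BS k := by
  have hpi := Real.pi_pos
  have hk : (0 : ℝ) ≤ k := Nat.cast_nonneg k
  unfold BS phi
  rcases Nat.eq_zero_or_pos k with rfl | h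
  · norm_num
    have e1 : lob π = 0 := EvenVol.LobIneq.lob_pi
    have e2 : lob (π / 2 - π) = 0 := by
      have : π / 2 - π = -(π / 2) := by ring
      rw [this, EvenVol.LobIneq.lob_neg, GapVol.lob_half, neg_zero]
    rw [e1, e2]
    simp
  · have hk1 : (1 : ℝ) ≤ k := by exact_mod_cast h
    have h1 : π / (k + 1) ≤ π / 2 := by gcongr; linarith
    have h2 := EvenVol.LobIneq.lob_nonneg (x := π / (k + 1)) (by positivity) h1
    have h0 : 0 ≤ π / ((k : ℝ) + 1) := by positivity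
    have h3 := EvenVol.LobIneq.lob_nonneg (x := π / 2 - π / (k + 1)) (by linarith)
      (by linarith)
    positivity

/-- the sum over the states -/
theorem WS_term {K M : ℕ} {ρ η Θ ε1 : ℝ} (h : Rad K M N ρ) (hK : 2 ≤ K) (hΘ0 : 0 ≤ Θ)
    (hroot : ∀ v : ℂ, ‖v - rt N‖ = ρ → ∀ n : ℕ, 0 < n → v ^ n ≠ 1)
    (hη : ∀ v : ℂ, ‖v - rt N‖ = ρ → ∀ n, n ≤ 4 * (K + 1) * N →
      |Real.log ‖brf v n‖ + N / π * lob (π * n / N)| ≤ η)
    (hph : ∀ (s r : Tp N K), phF (rt N) N K s r ≤ Real.exp (N / π * TS K s r + K * ε1 * N))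
    {l : ℕ} (s0 t0 : Tp N K) (hlN : l ≤ N) {f : ℂ → ℤ → ℂ} {G : ℂ → ℂ}
    (hG : DifferentiableOn ℂ G (Metric.closedBall (rt N) ρ))
    (hG2 : ∀ u : ℂ, Gen u → brf (u ^ 2) l * dd (f (u ^ 2)) (u ^ 2) (cw0 N K t0) l = G (u ^ 2))
    (hf : ∀ v : ℂ, ‖v - rt N‖ = ρ → ∀ i, i ≤ l →
      ‖f v ((cw0 N K t0 : ℤ) + 1 + 2 * (i : ℤ))‖ ≤ Θ) :
    ‖brf (rt N) l * G (rt N)‖ * WS (rt N) N K l s0 t0 ≤ (N : ℝ) ^ K *
      ((l + 1) * (Θ * (6 / ρ * Real.exp (N / π * (BS K / 2) + 6 * η + 2 * K * ε1 * N)))) := by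
  have hN1 := h.hN
  have hr0 := h.r0
  have hpar := cw0_par K t0
  have hμ := cw0_le (rt N) K t0
  have hE : 0 ≤ (l + 1) * (Θ * (6 / ρ * Real.exp (N / π * (BS K / 2) + 6 * η + 2 * K * ε1 * N))) := by
    positivity
  have hKN : ((K * N : ℕ) : ℤ) = K * ((N : ℤ) - 1) + K := by push_cast; ring
  unfold WS
  split_ifs with hc
  · have hcw := cw0_pos hc
    rw [mul_sum]
    refine (sum_le_sum (g := fun _ => (l + 1) * (Θ * (6 / ρ * Real.exp (N / π * (BS K / 2) +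
      6 * η + 2 * K * ε1 * N)))) fun r _ => ?_).trans ?_
    · split_ifs with hr
      · rw [phE_rt]
        refine term_bd h hK hΘ0 hroot hη hph hμ hlN hG hG2 hf hpar s0 t0 r hr.2 hr.1 ?_
        have h1 := hr.1
        rw [h1] at hcw
        push_cast at hcw
        zify
        push_cast at hKN
        linarith
      · rw [mul_zero]
        exact hE
    · rw [sum_const, card_univ, card_Tp, nsmul_eq_mul]
      push_cast
      exact le_rfl
  · have hcw := cw0_neg hc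
    rw [mul_sum]
    refine (sum_le_sum (g := fun _ => (l + 1) * (Θ * (6 / ρ * Real.exp (N / π * (BS K / 2) +
      6 * η + 2 * K * ε1 * N)))) fun r _ => ?_).trans ?_
    · split_ifs with hr
      · rw [phE_rt, phF_fl K r s0, phF_fl K r t0]
        have f1 := ds_fl K r
        have f2 := ds_fl K s0
        have f3 := ds_fl K t0
        refine term_bd h hK hΘ0 hroot hη hph hμ hlN hG hG2 hf hpar (fl K s0) (fl K t0) (fl K r)
          (by omega) (by omega) ?_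
        have h1 := hr.1
        have f3' : ((ds K (fl K t0) + ds K t0 + K : ℕ) : ℤ) = ((K * N : ℕ) : ℤ) := by rw [f3]
        have f1' : ((ds K (fl K r) + ds K r + K : ℕ) : ℤ) = ((K * N : ℕ) : ℤ) := by rw [f1]
        push_cast at f3' f1'
        have h1' : ((ds K r : ℕ) : ℤ) = ds K t0 + l := by rw [h1]; push_cast; ring
        zify
        linarith
      · rw [mul_zero]
        exact hE
    · rw [sum_const, card_univ, card_Tp, nsmul_eq_mul]
      push_cast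
      exact le_rfl

theorem alg3 {cd x k1 n Q Θ y z A B C E0 E e6 : ℝ} (hcd : cd ≤ k1 * n)
    (hx0 : 0 ≤ x) (hx : x ≤ k1 * n) (hY : y * z ≤ A * (B * C))
    (hc : 3 * e6 * k1 ^ 2 * A * (n ^ 2 * Q * B) ≤ E) (hQ : 0 ≤ Q) (hΘ : 0 ≤ Θ) (hC : 0 ≤ C)
    (hy : 0 ≤ y) (hz : 0 ≤ z) (hE0 : 0 ≤ E0) (hE : 0 ≤ E) (he6 : 0 ≤ e6) :
    cd * (Q * (x * (Θ * (3 * y * (E0 * E * e6 * z))))) ≤ Θ * C * (E * E0 * E) := by
  have h1 : 0 ≤ k1 * n := hx0.trans hx
  calc cd * (Q * (x * (Θ * (3 * y * (E0 * E * e6 * z)))))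
      ≤ (k1 * n) * (Q * ((k1 * n) * (Θ * (3 * y * (E0 * E * e6 * z))))) := by gcongr
    _ = 3 * e6 * k1 ^ 2 * (n ^ 2 * Q) * Θ * (y * z) * (E0 * E) := by ring
    _ ≤ 3 * e6 * k1 ^ 2 * (n ^ 2 * Q) * Θ * (A * (B * C)) * (E0 * E) := by gcongr
    _ = (3 * e6 * k1 ^ 2 * A * (n ^ 2 * Q * B)) * (Θ * C * (E0 * E)) := by ring
    _ ≤ E * (Θ * C * (E0 * E)) := by gcongr
    _ = _ := by ring

/-- **the entries of functions of the Casimir operator, sharp bound** -/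
theorem core (K : ℕ) (hK : 2 ≤ K) (ε : ℝ) (hε : 0 < ε) : ∀ᶠ N : ℕ in atTop,
    ∀ (M : ℕ) (Θ : ℝ), 0 ≤ Θ → ∀ (T : ℂ → Matrix (Tp N K) (Tp N K) ℂ) (f : ℂ → ℤ → ℂ)
      (s0 t0 : Tp N K), ContinuousAt (fun w => T w s0 t0) (rt N) →
      (∀ u : ℂ, Gen u → Sc u (MM (u ^ 2) N K) (T (u ^ 2)) (K * ((N : ℤ) - 1)) (f (u ^ 2))) →
      (∀ l ∈ rg N K t0, ∃ G : ℂ → ℂ,
        (∀ ρ, Rad K M N ρ → DifferentiableOn ℂ G (Metric.closedBall (rt N) ρ)) ∧
        ∀ u : ℂ, Gen u → brf (u ^ 2) l * dd (f (u ^ 2)) (u ^ 2) (cw0 N K t0) l = G (u ^ 2)) →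
      (∀ ρ, Rad K M N ρ → ∀ v : ℂ, ‖v - rt N‖ = ρ → ∀ c : ℕ, c ≤ 3 * (K * N) + 1 →
        (2 : ℤ) ∣ (c : ℤ) - (K * ((N : ℤ) - 1) + 1) → ‖f v c‖ ≤ Θ) →
      ‖T (rt N) s0 t0‖ ≤ Θ * ((M : ℝ) + 1) ^ (24 * (K + 1) + 1) *
        Real.exp (N * (BS K / (2 * π) + ε)) := by
  have hpi := Real.pi_pos
  set a : ℕ := 24 * (K + 1) + 1 with ha
  set ε1 : ℝ := ε / (8 * (K + 1)) with hε1
  have hε1p : 0 < ε1 := by positivity
  set ε' : ℝ := ε / 24 with hε'
  have hε'0 : 0 < ε' := by positivity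
  have hS := S_bound (4 * (K + 1)) ε' hε'0
  set b : ℕ := 2 + K + 3 * a with hb
  set c : ℝ := 3 * Real.exp 6 * ((K : ℝ) + 1) ^ 2 * (512 * ((K : ℝ) + 1) ^ 2) ^ a with hc
  have hc0 : 0 < c := by positivity
  have hev : ∀ᶠ N : ℕ in atTop, c * (N : ℝ) ^ b ≤ Real.exp (ε / 2 * N) := by
    have h1 := (isLittleO_pow_exp_pos_mul_atTop b (show 0 < ε / 2 by positivity)).bound
      (show 0 < 1 / c by positivity)
    have h2 := tendsto_natCast_atTop_atTop (R := ℝ) |>.eventually h1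
    filter_upwards [h2] with N hN
    rw [Real.norm_of_nonneg (by positivity), Real.norm_of_nonneg (Real.exp_pos _).le] at hN
    calc c * (N : ℝ) ^ b ≤ c * (1 / c * Real.exp (ε / 2 * N)) := by gcongr
      _ = _ := by field_simp
  filter_upwards [hev, hS, phF_TS ε1 hε1p, eventually_ge_atTop 2] with N hN hS hW hN2 M Θ hΘ0 T f
    s0 t0 hT hSc hGex hf
  have hN0 : (0 : ℝ) < N := by exact_mod_cast (by omega : 0 < N)
  have hN1 : (1 : ℝ) ≤ N := by exact_mod_cast (by omega : 1 ≤ N)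
  have hKR : (0 : ℝ) ≤ K := Nat.cast_nonneg K
  have hM0 : (0 : ℝ) ≤ M := Nat.cast_nonneg M
  -- the radius
  set D : ℝ := 128 * ((K : ℝ) + 1) ^ 2 * (N : ℝ) ^ 3 * ((M : ℝ) + 1) with hD
  have hD0 : 0 < D := by positivity
  obtain ⟨r, h1, h2, hroot⟩ := exists_radius (rt N) (r0 := 1 / D) (by positivity)
  have hr0 : 0 < r := lt_trans (by positivity) h1
  have hrad : Rad K M N r := by
    refine ⟨hN2, hr0, ?_, ?_⟩
    · have h3 : D * r ≤ D * (1 / D) := by gcongr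
      rw [mul_one_div_cancel hD0.ne'] at h3
      exact h3
    · have h3 : D * (1 / D / 2) ≤ D * r := by gcongr
      have h4 : D * (1 / D / 2) = 1 / 2 := by field_simp
      rw [h4] at h3
      have h5 : 256 * ((K : ℝ) + 1) ^ 2 * (N : ℝ) ^ 3 * ((M : ℝ) + 1) * r = 2 * (D * r) := by
        rw [hD]; ring
      rw [h5]
      linarith
  set y : ℝ := 2 / r with hy
  have hy0 : 0 < y := by positivity
  have hyb : y ≤ 512 * ((K : ℝ) + 1) ^ 2 * ((N : ℝ) ^ 3 * ((M : ℝ) + 1)) := by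
    rw [hy, div_le_iff₀ hr0]
    have := hrad.hr2
    nlinarith
  have e6 : 6 / r = 3 * y := by rw [hy]; ring
  have hη : ∀ v : ℂ, ‖v - rt N‖ = r → ∀ n, n ≤ 4 * (K + 1) * N →
      |Real.log ‖brf v n‖ + N / π * lob (π * n / N)| ≤
        ε' * N + (1 + (4 * (K + 1) : ℕ) * Real.log y) := by
    intro v hv n hn
    have e1 := (hrad.near hv).log_brf (C := 4 * (K + 1)) le_rfl n hn
    have e2 := hS n hn
    have e3 : Real.log ‖brf v n‖ + N / π * lob (π * n / N) =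
        (Real.log ‖brf v n‖ - EvenVol.S N n) + (EvenVol.S N n + N / π * lob (π * n / N)) := by ring
    rw [e3]
    refine (abs_add_le _ _).trans ?_
    linarith
  -- the functions
  choose! G hG using hGex
  have hent := root_entry K s0 t0 hT hSc (G := G)
    (fun l hl => (((hG l hl).1 r hrad).differentiableAt
      (Metric.closedBall_mem_nhds _ hr0)).continuousAt) (fun l hl => (hG l hl).2)
  set E0 : ℝ := Real.exp (N * (BS K / (2 * π))) with hE0
  have hexp : Real.exp (N / π * (BS K / 2) + 6 * (ε' * N + (1 + (4 * (K + 1) : ℕ) *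
      Real.log y)) + 2 * K * ε1 * N) ≤
      E0 * Real.exp (ε / 2 * N) * Real.exp 6 * y ^ (24 * (K + 1)) := by
    have e1 : y ^ (24 * (K + 1)) = Real.exp (((24 * (K + 1) : ℕ) : ℝ) * Real.log y) := by
      rw [Real.exp_nat_mul, Real.exp_log hy0]
    rw [e1, hE0, ← Real.exp_add, ← Real.exp_add, ← Real.exp_add, Real.exp_le_exp]
    have e2 : 2 * (K : ℝ) * ε1 ≤ ε / 4 := by
      rw [hε1]
      have e : 2 * (K : ℝ) * (ε / (8 * (K + 1))) = ε / 4 * (K / (K + 1)) := by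
        field_simp
        ring
      rw [e]
      have : (K : ℝ) / (K + 1) ≤ 1 := by
        rw [div_le_one (by positivity)]
        linarith
      nlinarith
    have e3 : 2 * (K : ℝ) * ε1 * N ≤ ε / 4 * N := by gcongr
    have e4 : N / π * (BS K / 2) = N * (BS K / (2 * π)) := by field_simp
    rw [e4, hε']
    push_cast
    nlinarith
  have hterm : ∀ l ∈ rg N K t0, ‖brf (rt N) l * G l (rt N)‖ * WS (rt N) N K l s0 t0 ≤
      (N : ℝ) ^ K * ((K * N + 1) * (Θ * (3 * y * (E0 * Real.exp (ε / 2 * N) * Real.exp 6 *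
        y ^ (24 * (K + 1)))))) := by
    intro l hl
    have hl1 := (mem_filter.1 hl).1
    rw [mem_range] at hl1
    rcases Nat.lt_or_ge l N with hlN | hlN
    · have g1 := WS_term hrad hK hΘ0 hroot hη (hW K) s0 t0 hlN.le ((hG l hl).1 r hrad)
        (hG l hl).2 (fun v hv i hi => by
          have hμ := cw0_le (rt N) K t0
          have hKN : N ≤ K * N := by nlinarith
          have := hf r hrad v hv (cw0 N K t0 + 1 + 2 * i) (by omega) (by
            obtain ⟨k, hk⟩ := cw0_par K t0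
            exact ⟨k + i, by push_cast; linarith⟩)
          push_cast at this
          exact this)
      refine g1.trans ?_
      rw [e6]
      have hl' : (l : ℝ) ≤ K * N := by exact_mod_cast (by omega : l ≤ K * N)
      gcongr
    · rw [brf_rt_zero (by omega) hlN, zero_mul, norm_zero, zero_mul]
      positivity
  refine hent.trans ((sum_le_sum hterm).trans ?_)
  rw [sum_const, nsmul_eq_mul]
  have hcard : ((rg N K t0).card : ℝ) ≤ (K : ℝ) * N + 1 := by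
    have h3 : (rg N K t0).card ≤ K * N + 1 := by
      refine (card_filter_le _ _).trans ?_
      rw [card_range]
    exact_mod_cast h3
  have hx2 : ((K : ℝ) * N + 1) ≤ ((K : ℝ) + 1) * N := by
    rw [add_mul, one_mul]
    exact add_le_add_right hN1 _
  have hy2 : y ^ a ≤ (512 * ((K : ℝ) + 1) ^ 2) ^ a * ((N : ℝ) ^ (3 * a) * ((M : ℝ) + 1) ^ a) := by
    calc y ^ a ≤ (512 * ((K : ℝ) + 1) ^ 2 * ((N : ℝ) ^ 3 * ((M : ℝ) + 1))) ^ a := by gcongr
      _ = _ := by rw [mul_pow, mul_pow ((N : ℝ) ^ 3), ← pow_mul]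
  have hya : y * y ^ (24 * (K + 1)) = y ^ a := by rw [ha, pow_succ]; ring
  have hlast : Real.exp (ε / 2 * N) * E0 * Real.exp (ε / 2 * N) =
      Real.exp (N * (BS K / (2 * π) + ε)) := by
    rw [hE0, ← Real.exp_add, ← Real.exp_add]
    congr 1
    ring
  have hNb : 3 * Real.exp 6 * ((K : ℝ) + 1) ^ 2 * (512 * ((K : ℝ) + 1) ^ 2) ^ a *
      ((N : ℝ) ^ 2 * (N : ℝ) ^ K * (N : ℝ) ^ (3 * a)) ≤ Real.exp (ε / 2 * N) := by
    have eN : (N : ℝ) ^ b = (N : ℝ) ^ 2 * (N : ℝ) ^ K * (N : ℝ) ^ (3 * a) := by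
      rw [hb, pow_add _ (2 + K) (3 * a), pow_add _ 2 K]
    rw [hc, eN] at hN
    exact hN
  rw [← hlast]
  rw [← hya] at hy2
  have hE0p : 0 ≤ E0 := (Real.exp_pos _).le
  have hy0' := hy0.le
  have hN0' : (0 : ℝ) ≤ N := hN0.le
  have hz0 : 0 ≤ y ^ (24 * (K + 1)) := by positivity
  clear_value y E0
  clear hterm hent hexp hη hlast
  generalize y ^ (24 * (K + 1)) = z at hy2 hz0 ⊢
  have hC0 : 0 ≤ ((M : ℝ) + 1) ^ a := by positivity
  generalize ((M : ℝ) + 1) ^ a = C at hy2 hC0 ⊢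
  have hQ0 : 0 ≤ (N : ℝ) ^ K := by positivity
  exact alg3 (cd := ((rg N K t0).card : ℝ)) (x := (K : ℝ) * N + 1) (k1 := (K : ℝ) + 1)
    (n := (N : ℝ)) (Q := (N : ℝ) ^ K) (Θ := Θ) (y := y) (z := z)
    (A := (512 * ((K : ℝ) + 1) ^ 2) ^ a) (B := (N : ℝ) ^ (3 * a)) (C := C) (E0 := E0)
    (E := Real.exp (ε / 2 * N)) (e6 := Real.exp 6) (hcard.trans hx2) (by positivity) hx2 hy2 hNb
    hQ0 hΘ0 hC0 hy0' hz0 hE0p (Real.exp_pos _).le (Real.exp_pos _).le

end Pool.Agent.Q191.SH
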