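import Pool.Agent.Q191.SH.PotS

/-!
# Entries of operators which are functions of the Casimir operator
-/

set_option autoImplicit false

namespace Pool.Agent.Q191.SH

open Matrix Finset Filter Topology
open Pool.Agent.H550R3.Jones (WM IsMod IsInt Gen br brf tens irr nb R Rinv Rh Rhi crossP crossN ptr)
open Pool.Agent.H897R.J (HasWt gen_br gen_v br_neg br_zero wt_F)
open Pool.Agent.W715.VC (rt)
open GapVol (lob)
open Pool.Agent.Q191.FT
open Pool.Agent.Q191.LB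
open scoped Real

variable {N : ℕ}

/-- sum over the intermediate states -/
noncomputable def WS (v : ℂ) (N K l : ℕ) (s0 t0 : Tp N K) : ℝ :=
  if 2 * (ds K t0 : ℤ) ≤ K * ((N : ℤ) - 1) then
    (∑ r : Tp N K, if ds K t0 = ds K r + l ∧ ds K s0 = ds K r + l then
      phF v N K s0 r * phE v N K r t0 else 0)
  else
    ∑ r : Tp N K, if ds K r = ds K t0 + l ∧ ds K r = ds K s0 + l then
      phE v N K s0 r * phF v N K r t0 else 0

theorem WS_nonneg (v : ℂ) (N K l : ℕ) (s0 t0 : Tp N K) : 0 ≤ WS v N K l s0 t0 := by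
  unfold WS
  split_ifs
  · refine sum_nonneg fun r _ => ?_
    split_ifs
    exacts [mul_nonneg (phF_nonneg _ _ _ _ _) (phE_nonneg _ _ _ _ _), le_rfl]
  · refine sum_nonneg fun r _ => ?_
    split_ifs
    exacts [mul_nonneg (phE_nonneg _ _ _ _ _) (phF_nonneg _ _ _ _ _), le_rfl]

theorem ds_le (K : ℕ) (x : Tp N K) : (ds K x : ℤ) ≤ K * ((N : ℤ) - 1) := by
  have h := ds_fl K x
  have h2 : ((ds K (fl K x) + ds K x + K : ℕ) : ℤ) = ((K * N : ℕ) : ℤ) := by rw [h]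
  push_cast at h2
  have : (0 : ℤ) ≤ (ds K (fl K x) : ℤ) := Int.natCast_nonneg _
  linarith

theorem cw0_pos {K : ℕ} {t0 : Tp N K} (h : 2 * (ds K t0 : ℤ) ≤ K * ((N : ℤ) - 1)) :
    (cw0 N K t0 : ℤ) = K * ((N : ℤ) - 1) - 2 * (ds K t0 : ℤ) := by
  unfold cw0
  rw [Int.natAbs_of_nonneg (by linarith)]

theorem cw0_neg {K : ℕ} {t0 : Tp N K} (h : ¬ 2 * (ds K t0 : ℤ) ≤ K * ((N : ℤ) - 1)) :
    (cw0 N K t0 : ℤ) = 2 * (ds K t0 : ℤ) - K * ((N : ℤ) - 1) := by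
  unfold cw0
  push Not at h
  rw [Int.ofNat_natAbs_of_nonpos (by linarith)]
  ring

theorem WS_zero (v : ℂ) {K l : ℕ} {s0 t0 : Tp N K}
    (h : ¬ (2 * (l : ℤ) + cw0 N K t0 ≤ K * ((N : ℤ) - 1))) : WS v N K l s0 t0 = 0 := by
  unfold WS
  split_ifs with hc
  · refine sum_eq_zero fun r _ => ?_
    rw [if_neg]
    rintro ⟨h1, -⟩
    apply h
    rw [cw0_pos hc, h1]
    have : (0 : ℤ) ≤ (ds K r : ℤ) := Int.natCast_nonneg _
    push_cast
    linarith
  · refine sum_eq_zero fun r _ => ?_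
    rw [if_neg]
    rintro ⟨h1, -⟩
    apply h
    have h2 := ds_le K r
    rw [cw0_neg hc]
    rw [h1] at h2
    push_cast at h2
    linarith

theorem WG_eq_WS (v : ℂ) {K : ℕ} (l : ℕ) (s0 t0 : Tp N K) :
    (2 * (ds K t0 : ℤ) ≤ K * ((N : ℤ) - 1) →
      WG (MM v N K) (phE v N K) (phF v N K) l s0 t0 = WS v N K l s0 t0) ∧
    (¬ 2 * (ds K t0 : ℤ) ≤ K * ((N : ℤ) - 1) →
      WG (dual (MM v N K)) (phF v N K) (phE v N K) l s0 t0 = WS v N K l s0 t0) := by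
  constructor
  · intro hc
    unfold WG WS
    rw [if_pos hc]
    refine sum_congr rfl fun r _ => ?_
    have e : ((MM v N K).wt r = (MM v N K).wt t0 + 2 * l ∧
        (MM v N K).wt r = (MM v N K).wt s0 + 2 * l) ↔
        (ds K t0 = ds K r + l ∧ ds K s0 = ds K r + l) := by
      rw [MM_wt_eq, MM_wt_eq, MM_wt_eq]
      omega
    simp only [e]
  · intro hc
    unfold WG WS
    rw [if_neg hc]
    refine sum_congr rfl fun r _ => ?_
    have e : ((dual (MM v N K)).wt r = (dual (MM v N K)).wt t0 + 2 * l ∧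
        (dual (MM v N K)).wt r = (dual (MM v N K)).wt s0 + 2 * l) ↔
        (ds K r = ds K t0 + l ∧ ds K r = ds K s0 + l) := by
      change (-(MM v N K).wt r = -(MM v N K).wt t0 + 2 * l ∧
        -(MM v N K).wt r = -(MM v N K).wt s0 + 2 * l) ↔ _
      rw [MM_wt_eq, MM_wt_eq, MM_wt_eq]
      omega
    simp only [e]

/-- the entries at generic parameters -/
theorem gen_entry {u : ℂ} (hu : Gen u) (N K : ℕ) {T : Matrix (Tp N K) (Tp N K) ℂ} {f : ℤ → ℂ}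
    (hS : Sc u (MM (u ^ 2) N K) T (K * ((N : ℤ) - 1)) f) (s0 t0 : Tp N K) :
    ‖T s0 t0‖ ≤ ∑ l ∈ range (K * N + 1),
      ‖brf (u ^ 2) l * dd f (u ^ 2) (cw0 N K t0) l‖ *
      (‖brf (u ^ 2) l‖ * (mx (u ^ 2) ^ yx N K * WS (u ^ 2) N K l s0 t0)) := by
  have hv := gen_v hu
  have hu0 := hu.1
  have h1 := mx_one (pow_ne_zero 2 hu0)
  have hmp := mx_pow hu0
  have hM := MM_mod hv N K
  generalize mx (u ^ 2) = M at h1 hmp
  have hM0 : 0 ≤ M := by linarith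
  have hβ : ∀ e : ℤ, |e| ≤ 2 * ((K : ℤ) * N) * N → ‖(u ^ 2) ^ e‖ ≤ M ^ (4 * K * N * N) := by
    intro e he
    have e1 : (u ^ 2) ^ e = u ^ (2 * e) := by
      rw [← zpow_natCast u 2, ← _root_.zpow_mul]
      rfl
    rw [e1]
    refine (hmp _).trans (pow_le_pow_right₀ h1 ?_)
    rw [Int.abs_eq_natAbs] at he
    have : (2 * e).natAbs = 2 * e.natAbs := by omega
    rw [this]
    have h2 : e.natAbs ≤ 2 * (K * N) * N := by exact_mod_cast he
    calc 2 * e.natAbs ≤ 2 * (2 * (K * N) * N) := by omega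
      _ = 4 * K * N * N := by ring
  have hD := DB_MM' hu hβ K le_rfl
  have hB0 : 0 ≤ (M ^ (4 * K * N * N)) ^ K := by positivity
  have eB : ((M ^ (4 * K * N * N)) ^ K) ^ 2 = M ^ yx N K := by
    rw [← pow_mul, ← pow_mul]
    congr 1
    unfold yx
    ring
  have hA : ∀ i, |(MM (u ^ 2) N K).wt i| ≤ ((K * N : ℕ) : ℤ) := fun i => by
    push_cast; exact (MM_wt (u ^ 2) N K i).1
  have hwt := MM_wt_eq (u ^ 2) K t0
  by_cases h : 2 * (ds K t0 : ℤ) ≤ K * ((N : ℤ) - 1)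
  · have hW := fun l => (WG_eq_WS (u ^ 2) l s0 t0).1 h
    have hμ : (MM (u ^ 2) N K).wt t0 = (cw0 N K t0 : ℕ) := by
      rw [cw0_pos h, hwt]
    have h2 := ent_norm hu hM hS hA hμ (MM_wt (u ^ 2) N K t0).2 hB0 (phE_nonneg _ _ K)
      (phF_nonneg _ _ K) hD s0
    rw [eB] at h2
    refine h2.trans (le_of_eq (sum_congr rfl fun l _ => ?_))
    rw [hW l]
  · have hW := fun l => (WG_eq_WS (u ^ 2) l s0 t0).2 h
    have hμ : (dual (MM (u ^ 2) N K)).wt t0 = (cw0 N K t0 : ℕ) := by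
      rw [cw0_neg h]
      change -(MM (u ^ 2) N K).wt t0 = _
      rw [hwt]
      ring
    have hS' : Sc u (dual (MM (u ^ 2) N K)) T (K * ((N : ℤ) - 1)) f := by
      intro c hc y hy
      rw [Cas_dual hv hM] at hy
      exact hS c hc y hy
    have h2 := ent_norm hu (dual_mod hM) hS' (fun i => by
        change |-(MM (u ^ 2) N K).wt i| ≤ _
        rw [abs_neg]
        exact hA i) hμ (by
        rw [hμ]
        exact cw0_par K t0) hB0 (phF_nonneg _ _ K)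
      (phE_nonneg _ _ K) (DB_dual hD) s0
    rw [eB] at h2
    refine h2.trans (le_of_eq (sum_congr rfl fun l _ => ?_))
    rw [hW l]

theorem WS_cont {v : ℂ} (hv : v ≠ 0) (hN : ∀ k : ℕ, 0 < k → k < N → br v k ≠ 0) (K l : ℕ)
    (s0 t0 : Tp N K) : ContinuousAt (fun w => WS w N K l s0 t0) v := by
  unfold WS
  by_cases hc : 2 * (ds K t0 : ℤ) ≤ K * ((N : ℤ) - 1)
  · simp only [if_pos hc]
    refine tendsto_finsetSum _ fun r _ => ?_
    by_cases h : ds K t0 = ds K r + l ∧ ds K s0 = ds K r + l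
    · simp only [if_pos h]
      exact (phF_cont hv hN K s0 r).mul (phE_cont hv hN K r t0)
    · simp only [if_neg h]
      exact continuousAt_const
  · simp only [if_neg hc]
    refine tendsto_finsetSum _ fun r _ => ?_
    by_cases h : ds K r = ds K t0 + l ∧ ds K r = ds K s0 + l
    · simp only [if_pos h]
      exact (phE_cont hv hN K s0 r).mul (phF_cont hv hN K r t0)
    · simp only [if_neg h]
      exact continuousAt_const

/-- the range of the summation -/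
def rg (N K : ℕ) (t0 : Tp N K) : Finset ℕ :=
  (range (K * N + 1)).filter fun l => 2 * (l : ℤ) + cw0 N K t0 ≤ K * ((N : ℤ) - 1)

/-- the entries at the root of unity -/
theorem root_entry (K : ℕ) (s0 t0 : Tp N K) {T : ℂ → Matrix (Tp N K) (Tp N K) ℂ}
    {f : ℂ → ℤ → ℂ} (hT : ContinuousAt (fun w => T w s0 t0) (rt N))
    (hS : ∀ u : ℂ, Gen u → Sc u (MM (u ^ 2) N K) (T (u ^ 2)) (K * ((N : ℤ) - 1)) (f (u ^ 2)))
    {G : ℕ → ℂ → ℂ} (hG : ∀ l ∈ rg N K t0, ContinuousAt (G l) (rt N))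
    (hG2 : ∀ l ∈ rg N K t0, ∀ u : ℂ, Gen u →
      brf (u ^ 2) l * dd (f (u ^ 2)) (u ^ 2) (cw0 N K t0) l = G l (u ^ 2)) :
    ‖T (rt N) s0 t0‖ ≤ ∑ l ∈ rg N K t0, ‖brf (rt N) l * G l (rt N)‖ * WS (rt N) N K l s0 t0 := by
  have hv := Pool.Agent.W613.QAT.rt_ne N
  have hN : ∀ k : ℕ, 0 < k → k < N → br (rt N) k ≠ 0 := Pool.Agent.W613.QAT.br_rt
  have h := lim_gen hv (F := fun w => ‖T w s0 t0‖)
    (G := fun w => ∑ l ∈ rg N K t0, ‖G l w‖ *
      (‖brf w l‖ * (mx w ^ yx N K * WS w N K l s0 t0)))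
    hT.norm
    (tendsto_finsetSum _ fun l hl => (hG l hl).norm.mul
      ((Pool.Agent.H756R3.J.brf_cont hv l).norm.mul
        (((mx_cont hv).pow _).mul (WS_cont hv hN K l s0 t0))))
    (fun u hu => by
      refine (gen_entry hu N K (hS u hu) s0 t0).trans (le_of_eq ?_)
      unfold rg
      rw [sum_filter]
      refine sum_congr rfl fun l hl => ?_
      by_cases hc : 2 * (l : ℤ) + cw0 N K t0 ≤ K * ((N : ℤ) - 1)
      · rw [if_pos hc, hG2 l (mem_filter.2 ⟨hl, hc⟩) u hu]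
      · rw [if_neg hc, WS_zero _ hc]
        ring)
  beta_reduce at h
  refine h.trans (le_of_eq (sum_congr rfl fun l _ => ?_))
  rw [mx_rt, one_pow, one_mul, norm_mul]
  ring

/-! ### The bound on the circle -/

theorem quotB {v : ℂ} {X : ℕ} {η B : ℝ} (hpos : ∀ n, n ≤ X → 0 < ‖brf v n‖)
    (hL : ∀ n, n ≤ X → |Real.log ‖brf v n‖ + N / π * lob (π * n / N)| ≤ η) {μ i l : ℕ} (hil : i ≤ l)
    (hX : μ + i + l ≤ X) (hB : WW N μ i l ≤ B) :
    ‖brf v l‖ ^ 2 * ‖brf v (μ + i)‖ ≤ Real.exp (N / π * B + 6 * η) *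
      (‖brf v (μ + i + l)‖ * (‖brf v i‖ * ‖brf v (l - i)‖)) := by
  have hpi := Real.pi_pos
  have p1 := hpos l (by omega)
  have p2 := hpos (μ + i) (by omega)
  have p3 := hpos (μ + i + l) hX
  have p4 := hpos i (by omega)
  have p5 := hpos (l - i) (by omega)
  have b1 := (abs_le.1 (hL l (by omega))).2
  have b2 := (abs_le.1 (hL (μ + i) (by omega))).2
  have b3 := (abs_le.1 (hL (μ + i + l) hX)).1
  have b4 := (abs_le.1 (hL i (by omega))).1
  have b5 := (abs_le.1 (hL (l - i) (by omega))).1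
  have hw := mul_le_mul_of_nonneg_left hB (show 0 ≤ (N : ℝ) / π by positivity)
  unfold WW at hw
  have key : 2 * Real.log ‖brf v l‖ + Real.log ‖brf v (μ + i)‖ ≤
      (N / π * B + 6 * η) + (Real.log ‖brf v (μ + i + l)‖ + (Real.log ‖brf v i‖ +
        Real.log ‖brf v (l - i)‖)) := by
    nlinarith
  have hl : Real.log (‖brf v l‖ ^ 2 * ‖brf v (μ + i)‖) =
      2 * Real.log ‖brf v l‖ + Real.log ‖brf v (μ + i)‖ := by
    rw [Real.log_mul (by positivity) p2.ne', Real.log_pow]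
    norm_num
  have hr : Real.log (Real.exp (N / π * B + 6 * η) *
      (‖brf v (μ + i + l)‖ * (‖brf v i‖ * ‖brf v (l - i)‖))) =
      (N / π * B + 6 * η) + (Real.log ‖brf v (μ + i + l)‖ + (Real.log ‖brf v i‖ +
        Real.log ‖brf v (l - i)‖)) := by
    rw [Real.log_mul (Real.exp_pos _).ne' (by positivity), Real.log_exp,
      Real.log_mul p3.ne' (by positivity), Real.log_mul p4.ne' p5.ne']
  rw [← Real.log_le_log_iff (by positivity) (by positivity), hl, hr]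
  exact key

theorem circ_B {K M : ℕ} {r η Θ B : ℝ} (h : Rad K M N r) (hΘ0 : 0 ≤ Θ) {u : ℂ}
    (hu : Gen u) (hv : ‖u ^ 2 - rt N‖ = r)
    (hL : ∀ n, n ≤ 4 * (K + 1) * N → |Real.log ‖brf (u ^ 2) n‖ + N / π * lob (π * n / N)| ≤ η)
    {μ l : ℕ} (hμ : μ ≤ K * N) (hl : l ≤ K * N) {f : ℤ → ℂ}
    (hf : ∀ i, i ≤ l → ‖f ((μ : ℤ) + 1 + 2 * (i : ℤ))‖ ≤ Θ)
    (hB : ∀ i, i ≤ l → WW N μ i l ≤ B) :
    ‖brf (u ^ 2) l * (brf (u ^ 2) l * dd f (u ^ 2) μ l)‖ ≤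
      (l + 1) * (Θ * (6 / r * Real.exp (N / π * B + 6 * η))) := by
  have hn := h.near hv
  have hN1 := h.hN
  have hr0 := h.r0
  have hvne := gen_v hu
  have hpos : ∀ n, n ≤ 4 * (K + 1) * N → 0 < ‖brf (u ^ 2) n‖ := fun n hn' => hn.brf_pos hn'
  have hKN : 4 * (K + 1) * N = 4 * (K * N) + 4 * N := by ring
  set E2 := Real.exp (N / π * B + 6 * η) with hE2
  have hE2p : 0 < E2 := Real.exp_pos _
  unfold dd ddn
  rw [mul_sum, mul_sum]
  have hb : ∀ i ∈ range (l + 1), ‖brf (u ^ 2) l * (brf (u ^ 2) l *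
      (f ((μ : ℤ) + 1 + 2 * (i : ℤ)) * (Dn (nu (u ^ 2) μ) i l)⁻¹))‖ ≤
      Θ * (6 / r * E2) := by
    intro i hi
    rw [mem_range] at hi
    have hil : i ≤ l := by omega
    have hf1 := hf i hil
    have hDne : Dn (nu (u ^ 2) μ) i l ≠ 0 :=
      Dn_ne (L := l) ((nu_inj hu (Int.natCast_nonneg μ)).injOn) (by omega) (by omega)
    have hD := norm_pos_iff.2 hDne
    have hQ : ‖brf (u ^ 2) l‖ ^ 2 ≤ (6 / r * E2) * ‖Dn (nu (u ^ 2) μ) i l‖ := by
      have hb1 := (hn.br_bd (n := μ + 1 + 2 * i) (by omega) (by omega)).2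
      have hb2 := (hn.br_bd (n := μ + i + l + 1) (by omega) (by omega)).1
      have e1 : brf (u ^ 2) (μ + 1 + i + l) = brf (u ^ 2) (μ + i + l) *
          br (u ^ 2) ((μ + i + l + 1 : ℕ) : ℤ) := by
        have : μ + 1 + i + l = μ + i + l + 1 := by ring
        rw [this, brf_succ']
        push_cast; rfl
      have q1 := quotB (v := u ^ 2) hpos hL hil (by omega) (hB i hil)
      have p2 := hpos (μ + i) (by omega)
      have p3 := hpos (μ + i + l) (by omega)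
      have p4 := hpos i (by omega)
      have p5 := hpos (l - i) (by omega)
      have h4 := norm_Dn hvne μ hil
      rw [e1, norm_mul] at h4
      have hpos2 : 0 < ‖brf (u ^ 2) (μ + i)‖ * ‖br (u ^ 2) ((μ : ℤ) + 1 + 2 * i)‖ := by
        have := norm_pos_iff.2 (gen_br hu (n := (μ : ℤ) + 1 + 2 * i) (by omega))
        positivity
      apply le_of_mul_le_mul_right _ hpos2
      rw [mul_assoc, h4]
      push_cast at hb1 hb2 ⊢
      rw [← hE2] at q1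
      calc ‖brf (u ^ 2) l‖ ^ 2 * (‖brf (u ^ 2) (μ + i)‖ * ‖br (u ^ 2) ((μ : ℤ) + 1 + 2 * i)‖)
          = ‖brf (u ^ 2) l‖ ^ 2 * ‖brf (u ^ 2) (μ + i)‖ *
            ‖br (u ^ 2) ((μ : ℤ) + 1 + 2 * i)‖ := by ring
        _ ≤ E2 * (‖brf (u ^ 2) (μ + i + l)‖ * (‖brf (u ^ 2) i‖ * ‖brf (u ^ 2) (l - i)‖)) * 3 := by
          gcongr
        _ = (6 / r * E2) * (‖brf (u ^ 2) (μ + i + l)‖ * (r / 2) *
            (‖brf (u ^ 2) i‖ * ‖brf (u ^ 2) (l - i)‖)) := by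
          field_simp
          ring
        _ ≤ (6 / r * E2) * (‖brf (u ^ 2) (μ + i + l)‖ *
            ‖br (u ^ 2) ((μ : ℤ) + i + l + 1)‖ * (‖brf (u ^ 2) i‖ * ‖brf (u ^ 2) (l - i)‖)) := by
          gcongr
    rw [norm_mul, norm_mul, norm_mul, norm_inv]
    calc ‖brf (u ^ 2) l‖ * (‖brf (u ^ 2) l‖ *
          (‖f ((μ : ℤ) + 1 + 2 * (i : ℤ))‖ * ‖Dn (nu (u ^ 2) μ) i l‖⁻¹))
        = ‖f ((μ : ℤ) + 1 + 2 * (i : ℤ))‖ *
          (‖brf (u ^ 2) l‖ ^ 2 * ‖Dn (nu (u ^ 2) μ) i l‖⁻¹) := by ring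
      _ ≤ Θ * ((6 / r * E2) * ‖Dn (nu (u ^ 2) μ) i l‖ *
          ‖Dn (nu (u ^ 2) μ) i l‖⁻¹) := by gcongr
      _ = Θ * (6 / r * E2) := by
          rw [mul_inv_cancel_right₀ hD.ne']
  refine (norm_sum_le _ _).trans ((sum_le_sum hb).trans ?_)
  rw [sum_const, card_range, nsmul_eq_mul]
  push_cast
  exact le_rfl

/-- the maximum principle -/
theorem G_B {K M : ℕ} {r η Θ B : ℝ} (h : Rad K M N r) (hΘ0 : 0 ≤ Θ)
    (hroot : ∀ v : ℂ, ‖v - rt N‖ = r → ∀ n : ℕ, 0 < n → v ^ n ≠ 1)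
    (hη : ∀ v : ℂ, ‖v - rt N‖ = r → ∀ n, n ≤ 4 * (K + 1) * N →
      |Real.log ‖brf v n‖ + N / π * lob (π * n / N)| ≤ η)
    {μ l : ℕ} (hμ : μ ≤ K * N) (hl : l ≤ K * N) {f : ℂ → ℤ → ℂ} {G : ℂ → ℂ}
    (hG : DifferentiableOn ℂ G (Metric.closedBall (rt N) r))
    (hG2 : ∀ u : ℂ, Gen u → brf (u ^ 2) l * dd (f (u ^ 2)) (u ^ 2) μ l = G (u ^ 2))
    (hf : ∀ v : ℂ, ‖v - rt N‖ = r → ∀ i, i ≤ l → ‖f v ((μ : ℤ) + 1 + 2 * (i : ℤ))‖ ≤ Θ)
    (hB : ∀ i, i ≤ l → WW N μ i l ≤ B) :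
    ‖brf (rt N) l * G (rt N)‖ ≤
      (l + 1) * (Θ * (6 / r * Real.exp (N / π * B + 6 * η))) := by
  have hr0 := h.r0
  have hfr : ∀ z ∈ frontier (Metric.ball (rt N) r), ‖z - rt N‖ = r := by
    intro z hz
    rw [frontier_ball _ hr0.ne'] at hz
    exact mem_sphere_iff_norm.1 hz
  have hd : DiffContOnCl ℂ (fun v => brf v l * G v) (Metric.ball (rt N) r) := by
    apply DifferentiableOn.diffContOnCl
    rw [closure_ball _ hr0.ne']
    intro v hv
    have hv' : ‖v - rt N‖ ≤ r := mem_closedBall_iff_norm.1 hv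
    have h1 := (near_ne h hv').1
    exact (brf_diff h1 l).differentiableWithinAt.mul (hG v hv)
  refine Complex.norm_le_of_forall_mem_frontier_norm_le Metric.isBounded_ball hd (fun v hv => ?_)
    (subset_closure (Metric.mem_ball_self hr0))
  have hv1 := hfr v hv
  obtain ⟨u, hu, hg⟩ := gen_of (near_ne h hv1.le).1 (hroot v hv1)
  subst hu
  rw [← hG2 u hg]
  exact circ_B h hΘ0 hg hv1 (hη _ hv1) hμ hl (hf _ hv1) hB

end Pool.Agent.Q191.SH
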