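import Pool.Agent.Q191.FT.Lob3
import Pool.Agent.Q191.LB.BtF

/-!
# The sharp potential of a belted region
-/

set_option autoImplicit false

namespace Pool.Agent.Q191.SH

open GapVol (lob)
open EvenVol.LobIneq (lob_per lob_neg lob_nonneg)
open Pool.Agent.W709.QAT (lob_pi_sub lob_max conc tet2 corr Rf)
open Pool.Agent.Q191.FT
open Pool.Agent.Q191.LB (lob_concave)
open scoped Real

/-- `Λ(θ) + Λ(π/2 - θ)` -/
noncomputable def phi (θ : ℝ) : ℝ := lob θ + lob (π / 2 - θ)

/-- the tangent plane at the triangle with angles `θ, π/2 - θ, π/2` -/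
theorem tan_plane {θ : ℝ} (h0 : 0 < θ) (h1 : θ < π / 2) {x y z : ℝ} (hx : 0 ≤ x) (hy : 0 ≤ y)
    (hz : 0 ≤ z) (h : x + y + z = π) :
    lob x + lob y + lob z ≤ phi θ - (x - θ) * Real.log (2 * Real.sin θ) -
      (y - (π / 2 - θ)) * Real.log (2 * Real.cos θ) - (z - π / 2) * Real.log 2 := by
  have hpi := Real.pi_pos
  have t := Pool.Agent.W120.VC.tet θ (π / 2 - θ) (π / 2) x y z h0 (by linarith) (by linarith)
    (by ring) hx hy hz h
  have e1 : Real.log (2 * Real.sin (π / 2)) = Real.log 2 := by rw [Real.sin_pi_div_two, mul_one]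
  rw [Real.sin_pi_div_two_sub, e1, GapVol.lob_half] at t
  unfold phi
  linarith

theorem AB_nonneg {θ : ℝ} (h0 : 0 < θ) (h1 : θ ≤ π / 4) :
    0 ≤ Real.log (2 * Real.cos θ) - Real.log (2 * Real.sin θ) := by
  have hpi := Real.pi_pos
  have hs : 0 < Real.sin θ := Real.sin_pos_of_pos_of_lt_pi h0 (by linarith)
  have h2 : Real.sin θ ≤ Real.cos θ := by
    rw [← Real.sin_pi_div_two_sub]
    exact Real.sin_le_sin_of_le_of_le_pi_div_two (by linarith) (by linarith) (by linarith)
  have := Real.log_le_log (by positivity : 0 < 2 * Real.sin θ)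
    (by linarith : 2 * Real.sin θ ≤ 2 * Real.cos θ)
  linarith

theorem CA_nonneg {θ : ℝ} (h0 : 0 < θ) (h1 : θ < π / 2) :
    0 ≤ Real.log 2 - Real.log (2 * Real.cos θ) := by
  have hpi := Real.pi_pos
  have hc : 0 < Real.cos θ := Real.cos_pos_of_mem_Ioo ⟨by linarith, h1⟩
  have h2 := Real.cos_le_one θ
  have := Real.log_le_log (by positivity : 0 < 2 * Real.cos θ)
    (by linarith : 2 * Real.cos θ ≤ 2)
  linarith

/-- the tangent of `phi` -/
theorem phi_tan {θ : ℝ} (h0 : 0 < θ) (h1 : θ < π / 2) {y : ℝ} (hy0 : 0 ≤ y) (hy1 : y ≤ π / 2) :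
    phi y ≤ phi θ + (y - θ) * (Real.log (2 * Real.cos θ) - Real.log (2 * Real.sin θ)) := by
  have h := tan_plane h0 h1 (x := y) (y := π / 2 - y) (z := π / 2) hy0 (by linarith)
    (by have := Real.pi_pos; linarith) (by ring)
  rw [GapVol.lob_half] at h
  unfold phi at h ⊢
  linarith

theorem lob_anti_six {x y : ℝ} (hx : π / 6 ≤ x) (hxy : x ≤ y) (hy : y ≤ π / 2) : lob y ≤ lob x := by
  have hpi := Real.pi_pos
  rcases eq_or_lt_of_le (hx.trans hxy) with h | h
  · have : y = x := le_antisymm (by linarith) hxy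
    rw [this]
  · have h1 : y ∈ Set.Icc (0 : ℝ) (π / 2) := ⟨by linarith, hy⟩
    have h2 : π / 6 ∈ Set.Icc (0 : ℝ) (π / 2) := ⟨by positivity, by linarith⟩
    have hd : 0 < y - π / 6 := by linarith
    obtain ⟨a, ha⟩ : ∃ a, a = (y - x) / (y - π / 6) := ⟨_, rfl⟩
    have ha0 : 0 ≤ a := by
      rw [ha]
      apply div_nonneg <;> linarith
    have ha1 : a ≤ 1 := by
      rw [ha, div_le_one hd]
      linarith
    have ha2 : a * (y - π / 6) = y - x := by
      rw [ha]
      exact div_mul_cancel₀ _ hd.ne'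
    have h3 := lob_concave.2 h1 h2 (show 0 ≤ 1 - a by linarith) ha0 (by ring)
    rw [smul_eq_mul, smul_eq_mul, smul_eq_mul, smul_eq_mul] at h3
    have e1 : (1 - a) * y + a * (π / 6) = x := by linarith
    rw [e1] at h3
    refine le_trans ?_ h3
    have h4 := lob_max y
    nlinarith

/-- a single triangle -/
theorem tri_le {θ : ℝ} (h0 : 0 < θ) (h1 : θ ≤ π / 4) {y i z : ℝ} (hy : 0 ≤ y) (hi : 0 ≤ i)
    (hz : 0 ≤ z) (h : y + i + z = π) :
    lob y + lob i + lob z ≤ 2 * phi θ +
      2 * (y - θ) * (Real.log (2 * Real.cos θ) - Real.log (2 * Real.sin θ)) := by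
  have hpi := Real.pi_pos
  have hAB := AB_nonneg h0 h1
  rcases le_total y (π / 4) with h2 | h2
  · have h3 := phi_tan h0 (by linarith) hy (y := y) (by linarith)
    have h4 := lob_conc' hi hz (by linarith)
    have h5 : lob ((i + z) / 2) ≤ lob (π / 2 - y) :=
      lob_anti_six (by linarith) (by linarith) (by linarith)
    have h6 := lob_nonneg (x := y) hy (by linarith)
    unfold phi at h3
    unfold phi
    linarith
  · have h3 := phi_tan h0 (by linarith) (y := π / 4) (by linarith) (by linarith)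
    have e : phi (π / 4) = 2 * lob (π / 4) := by
      unfold phi
      have : π / 2 - π / 4 = π / 4 := by ring
      rw [this]; ring
    have h4 : (π / 4 - θ) * (Real.log (2 * Real.cos θ) - Real.log (2 * Real.sin θ)) ≤
        (y - θ) * (Real.log (2 * Real.cos θ) - Real.log (2 * Real.sin θ)) := by gcongr
    have h5 := W_le
    have h6 := lobW i z
    have e2 : lob (i + z) = -lob y := by
      have : i + z = π - y := by linarith
      rw [this, lob_pi_sub]
    rw [e2] at h6
    rw [e] at h3
    linarith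

theorem lob_nat_sub (x : ℝ) (n : ℕ) : lob (x - n * π) = lob x := by
  have := lob_red x (n : ℤ)
  push_cast at this
  exact this

/-- the inequality for the middle terms -/
theorem mid_le {θ : ℝ} (h0 : 0 < θ) (h1 : θ ≤ π / 4) {l i μ : ℝ} (hi : 0 ≤ i) (hil : i ≤ l)
    (hl : l ≤ π) (hμ : 0 ≤ μ) :
    -2 * lob l + lob i + lob (l - i) - lob (μ + i) + lob (μ + i + l) ≤
      2 * phi θ + 2 * (π - l - θ) * (Real.log (2 * Real.cos θ) - Real.log (2 * Real.sin θ)) +
        μ * (Real.log 2 - Real.log (2 * Real.cos θ)) := by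
  have hpi := Real.pi_pos
  have hCA := CA_nonneg h0 (by linarith)
  obtain ⟨y, hy⟩ : ∃ y, y = π - l := ⟨_, rfl⟩
  have hy0 : 0 ≤ y := by linarith
  have hy1 : y ≤ π := by linarith
  have e1 : lob l = -lob y := by
    have : l = π - y := by linarith
    rw [this, lob_pi_sub]
  set n : ℤ := ⌊(μ + i) / π⌋ with hn
  have hn0 : 0 ≤ n := by
    rw [hn]
    apply Int.floor_nonneg.2
    positivity
  have hnR : (0 : ℝ) ≤ n := by exact_mod_cast hn0
  obtain ⟨s, hs, hs0, hs1⟩ := red_floor (μ + i)
  rw [← hn] at hs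
  have e2 : lob (μ + i) = lob s := by rw [hs, lob_red]
  have e3 : lob (μ + i + l) = lob (s - y) := by
    have h2 : lob (μ + i + l - ((n + 1 : ℤ) : ℝ) * π) = lob (μ + i + l) := lob_red _ _
    rw [← h2]
    congr 1
    rw [hs, hy]
    push_cast
    ring
  rw [e1, e2, e3]
  have t1 := tan_plane h0 (by linarith : θ < π / 2) (x := y) (y := l - i) (z := i) hy0
    (by linarith) hi (by linarith)
  have hl2 : l = π - y := by linarith
  rcases le_total y s with h2 | h2
  · -- both triangles are positive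
    have t2 := tan_plane h0 (by linarith : θ < π / 2) (x := y) (y := s - y) (z := π - s) hy0
      (by linarith) (by linarith) (by ring)
    rw [lob_pi_sub] at t2
    have h3 : s - i ≤ μ := by
      rw [hs]
      nlinarith
    have h4 : (s - i) * (Real.log 2 - Real.log (2 * Real.cos θ)) ≤
        μ * (Real.log 2 - Real.log (2 * Real.cos θ)) := by gcongr
    subst hl2
    nlinarith
  · -- the second triangle is negative
    have h3 := lob_sub_add (a := s) (b := y - s) hs0 (by linarith) (by linarith)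
    have e4 : s + (y - s) = y := by ring
    rw [e4] at h3
    have e5 : lob (s - y) = -lob (y - s) := by
      rw [← lob_neg]
      congr 1
      ring
    rw [e5]
    rcases eq_or_lt_of_le hn0 with h4 | h4
    · have h5 := tri_le h0 h1 (y := y) (i := i) (z := l - i) hy0 hi (by linarith) (by linarith)
      have h6 : 0 ≤ μ * (Real.log 2 - Real.log (2 * Real.cos θ)) := by positivity
      rw [hl2] at h5 ⊢
      have e6 : π - (π - y) - θ = y - θ := by ring
      rw [e6]
      linarith
    · have t2 := tan_plane h0 (by linarith : θ < π / 2) (x := y) (y := 0) (z := π - y) hy0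
        le_rfl (by linarith) (by ring)
      rw [lob_pi_sub, GapVol.lob_zero] at t2
      have h5 : (1 : ℝ) ≤ n := by exact_mod_cast h4
      have h6 : y - i ≤ μ := by
        have : π ≤ μ + i := by nlinarith
        linarith
      have h7 : (y - i) * (Real.log 2 - Real.log (2 * Real.cos θ)) ≤
          μ * (Real.log 2 - Real.log (2 * Real.cos θ)) := by gcongr
      subst hl2
      nlinarith

end Pool.Agent.Q191.SH
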