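import Pool.Agent.Q191.SH.Str

/-!
# The sharp potential, discrete form
-/

set_option autoImplicit false

namespace Pool.Agent.Q191.SH

open GapVol (lob)
open EvenVol.LobIneq (lob_per lob_neg lob_nonneg)
open Pool.Agent.W709.QAT (lob_pi_sub lob_max conc tet2 corr Rf)
open Pool.Agent.Q191.FT
open Pool.Agent.Q191.LB
open scoped Real

variable {N : ℕ}

/-- the potential of the middle terms -/
noncomputable def WW (N μ i l : ℕ) : ℝ :=
  -2 * lob (π * l / N) + lob (π * i / N) + lob (π * ((l - i : ℕ) : ℝ) / N) -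
    lob (π * ((μ + i : ℕ) : ℝ) / N) + lob (π * ((μ + i + l : ℕ) : ℝ) / N)

theorem pot3 (hN : 0 < N) {k : ℕ} (hk : 3 ≤ k) {s t r : Tp N k} (hs : Bel k s r) (ht : Bel k t r)
    {l : ℕ} (hsl : ds k s = ds k r + l) (htl : ds k t = ds k r + l) (hl : l ≤ N) {μ : ℕ}
    (hμ : μ + 2 * (ds k r + l) ≤ k * N) {i : ℕ} (hi : i ≤ l) :
    WW N μ i l + TS k s r + TS k t r ≤ 2 * (k + 1) * phi (π / (k + 1)) := by
  have hpi := Real.pi_pos
  have hNR : (0 : ℝ) < N := by exact_mod_cast hN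
  have hkR : (3 : ℝ) ≤ k := by exact_mod_cast hk
  obtain ⟨θ, hθ⟩ : ∃ θ, θ = π / ((k : ℝ) + 1) := ⟨_, rfl⟩
  rw [← hθ]
  have hθ0 : 0 < θ := by rw [hθ]; positivity
  have hθ1 : θ ≤ π / 4 := by
    rw [hθ]
    gcongr
    linarith
  have hθk : (k : ℝ) * θ = π - θ := by
    have : ((k : ℝ) + 1) * θ = π := by rw [hθ]; field_simp
    linarith
  have hCA := CA_nonneg hθ0 (by linarith)
  set A := Real.log (2 * Real.cos θ) with hA
  set B := Real.log (2 * Real.sin θ) with hB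
  set C := Real.log 2 with hC
  have hc : ∀ a x : ℝ, 0 ≤ a → 0 ≤ x → a + x ≤ π → lob a + lob x - lob (a + x) ≤
      (phi θ + θ * B + (π / 2 - θ) * A - π / 2 * C) + (C - A) * a + (C - B) * x := by
    intro a x ha hx hax
    have h := tan_plane hθ0 (by linarith : θ < π / 2) (x := x) (y := a) (z := π - (a + x)) hx ha
      (by linarith) (by ring)
    rw [lob_pi_sub] at h
    rw [← hA, ← hB, ← hC] at h
    linarith
  have h1 := TS_le hN hc k s r hs
  have h2 := TS_le hN hc k t r ht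
  have e1 : ds k s - ds k r = l := by omega
  have e2 : ds k t - ds k r = l := by omega
  rw [e1] at h1
  rw [e2] at h2
  have h3 := mid_le hθ0 hθ1 (l := π * l / N) (i := π * i / N) (μ := π * μ / N) (by positivity) (by
      have : (i : ℝ) ≤ l := by exact_mod_cast hi
      gcongr) (by
      rw [div_le_iff₀ hNR]
      have : (l : ℝ) ≤ N := by exact_mod_cast hl
      nlinarith) (by positivity)
  rw [← hA, ← hB, ← hC] at h3
  have e3 : π * l / N - π * i / N = π * ((l - i : ℕ) : ℝ) / N := by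
    rw [Nat.cast_sub hi]; ring
  have e4 : π * μ / N + π * i / N = π * ((μ + i : ℕ) : ℝ) / N := by push_cast; ring
  have e5 : π * ((μ + i : ℕ) : ℝ) / N + π * l / N = π * ((μ + i + l : ℕ) : ℝ) / N := by
    push_cast; ring
  rw [e3, e4, e5] at h3
  have hμR : ((μ + 2 * (ds k r + l) : ℕ) : ℝ) ≤ ((k * N : ℕ) : ℝ) := by exact_mod_cast hμ
  push_cast at hμR
  have h4 : π * μ / N + 2 * (π * (ds k r : ℝ) / N) + 2 * (π * l / N) ≤ k * π := by
    have : π * μ / N + 2 * (π * (ds k r : ℝ) / N) + 2 * (π * l / N) =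
        (μ + 2 * ((ds k r : ℝ) + l)) * (π / N) := by ring
    rw [this]
    calc (μ + 2 * ((ds k r : ℝ) + l)) * (π / N) ≤ (k * N) * (π / N) := by gcongr
      _ = k * π := by field_simp
  have h5 : (C - A) * (π * μ / N + 2 * (π * (ds k r : ℝ) / N) + 2 * (π * l / N)) ≤
      (C - A) * (k * π) := by gcongr
  unfold WW
  have h6 : (k : ℝ) * θ * (A - B) = (π - θ) * (A - B) := by rw [hθk]
  nlinarith

/-- two strands -/
theorem sub_le' {l δ δ' u p : ℝ} (hu : 0 ≤ u) (hul : u ≤ l) (hp : 0 ≤ p) (hpd : p ≤ δ)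
    (hd : δ ≤ δ') (hs : l + δ' ≤ π) :
    lob u + lob (l - u) + lob p + lob (δ - p) - (lob (u + p) + lob (l + δ - u - p)) ≤
      2 * lob (l / 2) + 2 * lob (δ' / 2) - 2 * lob ((l + δ') / 2) := by
  have hpi := Real.pi_pos
  rcases eq_or_lt_of_le (hu.trans hul) with hl | hl
  · have h1 : u = 0 := by linarith
    rw [← hl, h1]
    have e1 : (0 : ℝ) + δ - 0 - p = δ - p := by ring
    rw [e1]
    simp [GapVol.lob_zero]
  rcases eq_or_lt_of_le ((hp.trans hpd).trans hd) with hd0 | hd0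
  · have h0 : δ = 0 := by linarith
    have h1 : p = 0 := by linarith
    rw [← hd0, h1, h0]
    have e1 : l + (0 : ℝ) - u - 0 = l - u := by ring
    rw [e1]
    simp [GapVol.lob_zero]
  have t1 := Pool.Agent.W120.VC.tet (l / 2) (δ' / 2) (π - (l + δ') / 2) u p (π - (u + p))
    (by linarith) (by linarith) (by linarith) (by ring) hu hp (by linarith) (by ring)
  have t2 := Pool.Agent.W120.VC.tet (l / 2) (δ' / 2) (π - (l + δ') / 2) (l - u) (δ - p)
    (π - (l + δ - u - p)) (by linarith) (by linarith) (by linarith) (by ring) (by linarith)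
    (by linarith) (by linarith) (by ring)
  rw [lob_pi_sub, lob_pi_sub] at t1 t2
  have hs1 : Real.sin (π - (l + δ') / 2) = Real.sin ((l + δ') / 2) := Real.sin_pi_sub _
  rw [hs1] at t1 t2
  have hsd : 0 < Real.sin (δ' / 2) := Real.sin_pos_of_pos_of_lt_pi (by linarith) (by linarith)
  have hsl : Real.sin (δ' / 2) ≤ Real.sin ((l + δ') / 2) :=
    Real.sin_le_sin_of_le_of_le_pi_div_two (by linarith) (by linarith) (by linarith)
  have hlog := Real.log_le_log (by positivity : 0 < 2 * Real.sin (δ' / 2))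
    (by linarith : 2 * Real.sin (δ' / 2) ≤ 2 * Real.sin ((l + δ') / 2))
  set A := Real.log (2 * Real.sin (l / 2))
  set B := Real.log (2 * Real.sin (δ' / 2))
  set C := Real.log (2 * Real.sin ((l + δ') / 2))
  have e1 : (u - l / 2) * A + (l - u - l / 2) * A = 0 := by ring
  have e2 : (p - δ' / 2) * B + (δ - p - δ' / 2) * B = (δ - δ') * B := by ring
  have e3 : (π - (u + p) - (π - (l + δ') / 2)) * C +
      (π - (l + δ - u - p) - (π - (l + δ') / 2)) * C = (δ' - δ) * C := by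
    ring
  have e4 : 0 ≤ (δ' - δ) * (C - B) := mul_nonneg (by linarith) (by linarith)
  linarith

theorem phi_three : 6 * phi (π / 3) = 10 * lob (π / 6) := by
  have h := GapVol.lob_dup
  unfold phi
  have e : π / 2 - π / 3 = π / 6 := by ring
  rw [e]
  linarith

theorem pot2 (hN : 0 < N) {s t r : Tp N 2} (hs : Bel 2 s r) (ht : Bel 2 t r)
    {l : ℕ} (hsl : ds 2 s = ds 2 r + l) (htl : ds 2 t = ds 2 r + l) {h : ℕ}
    (hh : h + (ds 2 r + l) ≤ N) {i : ℕ} (hi : i ≤ l) :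
    WW N (2 * h) i l + TS 2 s r + TS 2 t r ≤ 10 * lob (π / 6) := by
  have hpi := Real.pi_pos
  have hNR : (0 : ℝ) < N := by exact_mod_cast hN
  obtain ⟨δ, hδ⟩ : ∃ δ : ℝ, δ = π * (ds 2 r : ℝ) / N := ⟨_, rfl⟩
  obtain ⟨L, hL⟩ : ∃ L : ℝ, L = π * (l : ℝ) / N := ⟨_, rfl⟩
  obtain ⟨H, hH⟩ : ∃ H : ℝ, H = π * (h : ℝ) / N := ⟨_, rfl⟩
  obtain ⟨δ', hδ'⟩ : ∃ δ' : ℝ, δ' = π - H - L := ⟨_, rfl⟩
  have hsum : H + (δ + L) ≤ π := by
    have h1 : ((h + (ds 2 r + l) : ℕ) : ℝ) ≤ (N : ℝ) := by exact_mod_cast hh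
    push_cast at h1
    have e : H + (δ + L) = (h + ((ds 2 r : ℝ) + l)) * (π / N) := by
      rw [hδ, hL, hH]; ring
    rw [e]
    calc (h + ((ds 2 r : ℝ) + l)) * (π / N) ≤ N * (π / N) := by gcongr
      _ = π := by field_simp
  have hH0 : 0 ≤ H := by rw [hH]; positivity
  have hL0 : 0 ≤ L := by rw [hL]; positivity
  have hδ0 : 0 ≤ δ := by rw [hδ]; positivity
  -- the strands
  have hT : ∀ x : Tp N 2, Bel 2 x r → ds 2 x = ds 2 r + l →
      TS 2 x r ≤ 2 * lob (L / 2) + 2 * lob (δ' / 2) - 2 * lob ((L + δ') / 2) := by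
    intro x hx hxl
    have hb1 : ((r.1.2 : Fin N) : ℕ) ≤ (x.1.2 : Fin N) := hx.1.2
    have hb2 : ((r.2 : Fin N) : ℕ) ≤ (x.2 : Fin N) := hx.2
    have d1 : ds 2 x = 0 + ((x.1.2 : Fin N) : ℕ) + ((x.2 : Fin N) : ℕ) := rfl
    have d2 : ds 2 r = 0 + ((r.1.2 : Fin N) : ℕ) + ((r.2 : Fin N) : ℕ) := rfl
    have e0 : TS 2 x r = 0 + (lob (π * ((r.1.2 : Fin N) : ℕ) / N) +
      lob (π * ((((x.1.2 : Fin N) : ℕ) - ((r.1.2 : Fin N) : ℕ) : ℕ) : ℝ) / N) -
      lob (π * ((x.1.2 : Fin N) : ℕ) / N)) + (lob (π * ((r.2 : Fin N) : ℕ) / N) +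
      lob (π * ((((x.2 : Fin N) : ℕ) - ((r.2 : Fin N) : ℕ) : ℕ) : ℝ) / N) -
      lob (π * ((x.2 : Fin N) : ℕ) / N)) := rfl
    obtain ⟨a, ha⟩ : ∃ a : ℕ, a = ((r.1.2 : Fin N) : ℕ) := ⟨_, rfl⟩
    obtain ⟨b, hb⟩ : ∃ b : ℕ, b = ((r.2 : Fin N) : ℕ) := ⟨_, rfl⟩
    obtain ⟨a', ha'⟩ : ∃ a : ℕ, a = ((x.1.2 : Fin N) : ℕ) := ⟨_, rfl⟩
    obtain ⟨b', hb'⟩ : ∃ b : ℕ, b = ((x.2 : Fin N) : ℕ) := ⟨_, rfl⟩
    rw [← ha, ← hb, ← ha', ← hb'] at e0
    rw [← ha', ← hb'] at d1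
    rw [← ha, ← hb] at d2
    rw [← ha, ← ha'] at hb1
    rw [← hb, ← hb'] at hb2
    rw [e0]
    have hm := sub_le' (l := L) (δ := δ) (δ' := δ') (u := π * ((a' - a : ℕ) : ℝ) / N)
      (p := π * (a : ℝ) / N) (by positivity) (by
        rw [hL]
        have : ((a' - a : ℕ) : ℝ) ≤ l := by exact_mod_cast (by omega : a' - a ≤ l)
        gcongr) (by positivity) (by
        rw [hδ]
        have : (a : ℝ) ≤ (ds 2 r : ℝ) := by exact_mod_cast (by omega : a ≤ ds 2 r)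
        gcongr) (by linarith) (by linarith)
    have f1 : L - π * ((a' - a : ℕ) : ℝ) / N = π * ((b' - b : ℕ) : ℝ) / N := by
      rw [hL]
      have : (l : ℝ) = ((a' - a : ℕ) : ℝ) + ((b' - b : ℕ) : ℝ) := by
        rw [← Nat.cast_add]; congr 1; omega
      rw [this]; ring
    have f2 : δ - π * (a : ℝ) / N = π * (b : ℝ) / N := by
      rw [hδ]
      have : (ds 2 r : ℝ) = (a : ℝ) + (b : ℝ) := by
        rw [← Nat.cast_add]; congr 1; omega
      rw [this]; ring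
    have f3 : π * ((a' - a : ℕ) : ℝ) / N + π * (a : ℝ) / N = π * (a' : ℝ) / N := by
      rw [← add_div, ← mul_add, ← Nat.cast_add]
      congr 3; omega
    have f4 : L + δ - π * ((a' - a : ℕ) : ℝ) / N - π * (a : ℝ) / N = π * (b' : ℝ) / N := by
      have : L + δ - π * ((a' - a : ℕ) : ℝ) / N - π * (a : ℝ) / N =
        (L - π * ((a' - a : ℕ) : ℝ) / N) + (δ - π * (a : ℝ) / N) := by ring
      rw [this, f1, f2, ← add_div, ← mul_add, ← Nat.cast_add]
      congr 3; omega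
    rw [f1, f2, f3, f4] at hm
    linarith
  have h1 := hT s hs hsl
  have h2 := hT t ht htl
  -- the middle terms
  have h3 := corr (μ := H) hH0 (by linarith) (π / 2 - H - π * i / N)
  have h4 := tet2 (l := L) hL0 (by linarith)
  have h5 := lob_max (δ' / 2)
  have h6 := lob_max (π * ((l - i : ℕ) : ℝ) / N)
  have h7 := lob_max (π * ((2 * h + i + l : ℕ) : ℝ) / N)
  have e : (π - H) / 2 = (L + δ') / 2 := by rw [hδ']; ring
  rw [e] at h3
  unfold Rf at h3
  have g1 : π / 2 - H - (π / 2 - H - π * i / N) = π * i / N := by ring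
  have g2 : π / 2 - H + (π / 2 - H - π * i / N) = π - π * ((2 * h + i : ℕ) : ℝ) / N := by
    rw [hH]; push_cast; ring
  rw [g1, g2, lob_pi_sub] at h3
  unfold WW
  rw [← hL]
  linarith

end Pool.Agent.Q191.SH
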