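import Pool.Agent.Q191.SH.Pot

/-!
# States of the strands of a belted region at the root of unity
-/

set_option autoImplicit false

namespace Pool.Agent.Q191.SH

open Matrix Finset Filter Topology
open Pool.Agent.H550R3.Jones (WM IsMod IsInt Gen br brf tens irr nb R Rinv Rh Rhi crossP crossN ptr)
open Pool.Agent.W715.VC (rt)
open Pool.Agent.W709.QAT (lob_pi_sub lob_max conc tet2 corr Rf Fa)
open GapVol (lob)
open Pool.Agent.Q191.FT
open Pool.Agent.Q191.LB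
open scoped Real

variable {N : ℕ}

/-! ### Flips -/

/-- the state with all indices reversed -/
def fl : (k : ℕ) → Tp N k → Tp N k
  | 0, x => x
  | k + 1, x => (fl k x.1, Fin.rev x.2)

theorem fl_fl : ∀ k (x : Tp N k), fl k (fl k x) = x
  | 0, _ => rfl
  | k + 1, x => Prod.ext (fl_fl k x.1) (Fin.rev_rev x.2)

theorem ds_fl : ∀ k (x : Tp N k), ds k (fl k x) + ds k x + k = k * N
  | 0, _ => by change 0 + 0 + 0 = 0 * N; omega
  | k + 1, x => by
    have h := ds_fl k x.1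
    have e : ds (k + 1) (fl (k + 1) x) = ds k (fl k x.1) + ((Fin.rev x.2 : Fin N) : ℕ) := rfl
    have e2 : ds (k + 1) x = ds k x.1 + ((x.2 : Fin N) : ℕ) := rfl
    rw [e, e2, Fin.val_rev]
    have := (x.2 : Fin N).2
    rw [add_mul, one_mul]
    omega

theorem Fa_pos {n : ℕ} (hn : n < N) : 0 < Fa N n := by
  have h : Fa N n = ‖brf (rt N) n‖ := rfl
  rw [h, norm_pos_iff]
  exact Pool.Agent.H927R2.J.SanYB.brf_ne (Pool.Agent.W715.VC.adm N) hn

theorem Fa_rev {i : ℕ} (hi : i < N) : Fa N (N - 1 - i) * Fa N i = Fa N (N - 1) := by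
  have h := Pool.Agent.W28.QAT.brf_refl (show 0 < N by omega) i hi
  have h2 := congrArg norm h
  rw [norm_mul] at h2
  exact h2

theorem qb_rev {i j : ℕ} (hj : j < N) (hij : i ≤ j) :
    qb (rt N) (N - 1 - j) (j - i) = qb (rt N) i (j - i) := by
  have e1 : N - 1 - j + (j - i) = N - 1 - i := by omega
  have e2 : i + (j - i) = j := by omega
  have h1 := Fa_rev (N := N) (i := i) (by omega)
  have h2 := Fa_rev (N := N) (i := j) hj
  have p1 := Fa_pos (N := N) (n := i) (by omega)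
  have p2 := Fa_pos (N := N) (n := j) hj
  have p3 := Fa_pos (N := N) (n := j - i) (by omega)
  have p4 := Fa_pos (N := N) (n := N - 1 - i) (by omega)
  have p5 := Fa_pos (N := N) (n := N - 1 - j) (by omega)
  change Fa N (N - 1 - j + (j - i)) / (Fa N (N - 1 - j) * Fa N (j - i)) =
    Fa N (i + (j - i)) / (Fa N i * Fa N (j - i))
  rw [e1, e2, div_eq_div_iff (by positivity) (by positivity)]
  have h3 : Fa N (N - 1 - i) * Fa N i = Fa N (N - 1 - j) * Fa N j := h1.trans h2.symm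
  calc Fa N (N - 1 - i) * (Fa N i * Fa N (j - i)) = (Fa N (N - 1 - i) * Fa N i) * Fa N (j - i) := by
        ring
    _ = Fa N j * (Fa N (N - 1 - j) * Fa N (j - i)) := by rw [h3]; ring

theorem fE_rt (i j : Fin N) : fE (rt N) N i j = fF (rt N) N j i := by
  unfold fE fF
  by_cases h : (i : ℕ) ≤ j
  · rw [if_pos h, if_pos h, qb_rev j.2 h]
  · rw [if_neg h, if_neg h]

theorem fF_rev (i j : Fin N) : fF (rt N) N i j = fF (rt N) N (Fin.rev j) (Fin.rev i) := by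
  unfold fF
  have hi := i.2
  have hj := j.2
  rw [Fin.val_rev, Fin.val_rev]
  by_cases h : (j : ℕ) ≤ i
  · rw [if_pos h, if_pos (by omega), ← qb_rev i.2 h]
    congr 1 <;> omega
  · rw [if_neg h, if_neg (by omega)]

theorem phE_rt : ∀ k (x y : Tp N k), phE (rt N) N k x y = phF (rt N) N k y x
  | 0, _, _ => rfl
  | k + 1, x, y => congrArg₂ (· * ·) (phE_rt k x.1 y.1) (fE_rt _ _)

theorem phF_fl : ∀ k (x y : Tp N k), phF (rt N) N k x y = phF (rt N) N k (fl k y) (fl k x)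
  | 0, _, _ => rfl
  | k + 1, x, y => congrArg₂ (· * ·) (phF_fl k x.1 y.1) (fF_rev _ _)

/-! ### The potential of the strands -/

/-- the potential of the strands -/
noncomputable def TS : (k : ℕ) → Tp N k → Tp N k → ℝ
  | 0, _, _ => 0
  | k + 1, s, r => TS k s.1 r.1 + (lob (π * ((r.2 : Fin N) : ℕ) / N) +
      lob (π * ((((s.2 : Fin N) : ℕ) - ((r.2 : Fin N) : ℕ) : ℕ) : ℝ) / N) -
      lob (π * ((s.2 : Fin N) : ℕ) / N))

/-- `r ≤ s` on every strand -/
def Bel : (k : ℕ) → Tp N k → Tp N k → Prop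
  | 0, _, _ => True
  | k + 1, s, r => Bel k s.1 r.1 ∧ ((r.2 : Fin N) : ℕ) ≤ (s.2 : Fin N)

theorem bel_of {v : ℂ} : ∀ k (s r : Tp N k), phF v N k s r ≠ 0 → Bel k s r
  | 0, _, _ => fun _ => trivial
  | k + 1, s, r => fun h => ⟨bel_of k s.1 r.1 (left_ne_zero_of_mul h), by
      have h2 : fF v N s.2 r.2 ≠ 0 := right_ne_zero_of_mul h
      by_contra h4
      exact h2 (if_neg h4)⟩

theorem bel_ds : ∀ k (s r : Tp N k), Bel k s r → ds k r ≤ ds k s
  | 0, _, _ => fun _ => le_rfl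
  | k + 1, s, r => fun h => by
    have h1 := bel_ds k s.1 r.1 h.1
    have h2 := h.2
    change ds k r.1 + ((r.2 : Fin N) : ℕ) ≤ ds k s.1 + ((s.2 : Fin N) : ℕ)
    omega

theorem phF_TS (ε : ℝ) (hε : 0 < ε) : ∀ᶠ N : ℕ in atTop, ∀ (k : ℕ) (s r : Tp N k),
    phF (rt N) N k s r ≤ Real.exp (N / π * TS k s r + k * ε * N) := by
  have hpi := Real.pi_pos
  filter_upwards [Pool.Agent.W563.QAT.lb (ε / 3) (by positivity), eventually_gt_atTop 0] with
    N hN hN0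
  have hNR : (0 : ℝ) < N := by exact_mod_cast hN0
  have hfF : ∀ i j : Fin N, fF (rt N) N i j ≤
      Real.exp (N / π * (lob (π * (j : ℕ) / N) + lob (π * (((i : ℕ) - (j : ℕ) : ℕ) : ℝ) / N) -
        lob (π * (i : ℕ) / N)) + ε * N) := by
    intro i j
    unfold fF
    split_ifs with hij
    · have hi := i.2
      obtain ⟨p1, b1⟩ := hN j j.2
      obtain ⟨p2, b2⟩ := hN (i - j) (by omega)
      obtain ⟨p3, b3⟩ := hN i i.2
      have h1 := abs_le.1 b1
      have h2 := abs_le.1 b2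
      have h3 := abs_le.1 b3
      have e : (j : ℕ) + ((i : ℕ) - j) = i := by omega
      have hq : qb (rt N) j (i - j) = Fa N i / (Fa N j * Fa N (i - j)) := by
        unfold qb
        rw [e]
        rfl
      rw [hq, ← Real.exp_log (div_pos p3 (mul_pos p1 p2)), Real.exp_le_exp,
        Real.log_div p3.ne' (mul_pos p1 p2).ne', Real.log_mul p1.ne' p2.ne']
      have e2 : N / π * (lob (π * (j : ℕ) / N) + lob (π * (((i : ℕ) - (j : ℕ) : ℕ) : ℝ) / N) -
        lob (π * (i : ℕ) / N)) = N / π * lob (π * (j : ℕ) / N) +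
        N / π * lob (π * (((i : ℕ) - (j : ℕ) : ℕ) : ℝ) / N) - N / π * lob (π * (i : ℕ) / N) := by ring
      rw [e2]
      nlinarith [h1.1, h1.2, h2.1, h2.2, h3.1, h3.2]
    · exact (Real.exp_pos _).le
  intro k
  induction k with
  | zero =>
    intro s r
    change (1 : ℝ) ≤ Real.exp (N / π * 0 + ((0 : ℕ) : ℝ) * ε * N)
    simp
  | succ k ih =>
    intro s r
    have h1 := mul_le_mul (ih s.1 r.1) (hfF s.2 r.2) (fF_nonneg _ _ _ _) (Real.exp_pos _).le
    refine h1.trans (le_of_eq ?_)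
    rw [← Real.exp_add]
    congr 1
    have e : TS (k + 1) s r = TS k s.1 r.1 + (lob (π * ((r.2 : Fin N) : ℕ) / N) +
      lob (π * ((((s.2 : Fin N) : ℕ) - ((r.2 : Fin N) : ℕ) : ℕ) : ℝ) / N) -
      lob (π * ((s.2 : Fin N) : ℕ) / N)) := rfl
    rw [e]
    push_cast
    ring

theorem TS_le (hN : 0 < N) {c0 c1 c2 : ℝ} (hc : ∀ a x : ℝ, 0 ≤ a → 0 ≤ x → a + x ≤ π →
    lob a + lob x - lob (a + x) ≤ c0 + c1 * a + c2 * x) : ∀ (k : ℕ) (s r : Tp N k), Bel k s r →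
    TS k s r ≤ k * c0 + c1 * (π * ds k r / N) + c2 * (π * ((ds k s - ds k r : ℕ) : ℝ) / N)
  | 0, s, r => fun _ => by
    change (0 : ℝ) ≤ ((0 : ℕ) : ℝ) * c0 + c1 * (π * ((0 : ℕ) : ℝ) / N) +
      c2 * (π * ((0 - 0 : ℕ) : ℝ) / N)
    simp
  | k + 1, s, r => fun h => by
    have hpi := Real.pi_pos
    have hNR : (0 : ℝ) < N := by exact_mod_cast hN
    have h1 := TS_le hN hc k s.1 r.1 h.1
    have h2 := h.2
    have h3 := bel_ds k s.1 r.1 h.1
    have hs := (s.2 : Fin N).2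
    have h4 := hc (π * ((r.2 : Fin N) : ℕ) / N)
      (π * ((((s.2 : Fin N) : ℕ) - ((r.2 : Fin N) : ℕ) : ℕ) : ℝ) / N) (by positivity)
      (by positivity) (by
        rw [← add_div, ← mul_add, div_le_iff₀ hNR, ← Nat.cast_add]
        have : ((r.2 : Fin N) : ℕ) + (((s.2 : Fin N) : ℕ) - ((r.2 : Fin N) : ℕ)) ≤ N := by omega
        have : ((((r.2 : Fin N) : ℕ) + (((s.2 : Fin N) : ℕ) - ((r.2 : Fin N) : ℕ)) : ℕ) : ℝ) ≤ N := by
          exact_mod_cast this
        nlinarith)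
    have e1 : π * ((r.2 : Fin N) : ℕ) / N +
        π * ((((s.2 : Fin N) : ℕ) - ((r.2 : Fin N) : ℕ) : ℕ) : ℝ) / N = π * ((s.2 : Fin N) : ℕ) / N := by
      rw [← add_div, ← mul_add, ← Nat.cast_add]
      congr 3
      omega
    rw [e1] at h4
    have e2 : TS (k + 1) s r = TS k s.1 r.1 + (lob (π * ((r.2 : Fin N) : ℕ) / N) +
      lob (π * ((((s.2 : Fin N) : ℕ) - ((r.2 : Fin N) : ℕ) : ℕ) : ℝ) / N) -
      lob (π * ((s.2 : Fin N) : ℕ) / N)) := rfl
    have e3 : ds (k + 1) r = ds k r.1 + ((r.2 : Fin N) : ℕ) := rfl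
    have e4 : ds (k + 1) s = ds k s.1 + ((s.2 : Fin N) : ℕ) := rfl
    have e5 : ds k s.1 + ((s.2 : Fin N) : ℕ) - (ds k r.1 + ((r.2 : Fin N) : ℕ)) =
      (ds k s.1 - ds k r.1) + (((s.2 : Fin N) : ℕ) - ((r.2 : Fin N) : ℕ)) := by omega
    rw [e2, e3, e4, e5]
    push_cast
    have e6 : c1 * (π * ((ds k r.1 : ℝ) + (((r.2 : Fin N) : ℕ) : ℝ)) / N) =
      c1 * (π * (ds k r.1 : ℝ) / N) + c1 * (π * (((r.2 : Fin N) : ℕ) : ℝ) / N) := by ring
    have e7 : c2 * (π * (((ds k s.1 - ds k r.1 : ℕ) : ℝ) +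
        ((((s.2 : Fin N) : ℕ) - ((r.2 : Fin N) : ℕ) : ℕ) : ℝ)) / N) =
      c2 * (π * ((ds k s.1 - ds k r.1 : ℕ) : ℝ) / N) +
      c2 * (π * ((((s.2 : Fin N) : ℕ) - ((r.2 : Fin N) : ℕ) : ℕ) : ℝ) / N) := by ring
    rw [e6, e7]
    linarith

end Pool.Agent.Q191.SH
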