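import Pool.Agent.Q191.SH.Blt01
import Pool.Agent.H897R.J.DecD

/-!
# A crossing as a function of the Casimir operator
-/

set_option autoImplicit false

namespace Pool.Agent.Q191.SH

open Matrix Finset Filter Topology
open scoped Kronecker
open Pool.Agent.H550R3.Jones (WM IsMod IsInt Gen br brf tens irr nb R Rinv Rh Rhi crossP crossN ptr W)
open Pool.Agent.H897R.J (HasWt gen_br gen_v br_neg br_zero wt_F)
open Pool.Agent.W715.VC (rt)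
open Pool.Agent.Q191.FT
open Pool.Agent.Q191.LB

/-- the sign of an eigenvalue of a crossing -/
noncomputable def sgn (N : ℕ) (c : ℤ) : ℂ := if (4 : ℤ) ∣ 2 * (N : ℤ) - 1 - |c| then 1 else -1

/-- the eigenvalues of a crossing -/
noncomputable def gg (N : ℕ) (s : ℤ) (v : ℂ) (c : ℤ) : ℂ :=
  sgn N c * v ^ (s * ((c ^ 2 - 1) / 4 - ((N : ℤ) ^ 2 - 1)))

theorem sgn_sq (N : ℕ) (c : ℤ) : sgn N c * sgn N c = 1 := by
  unfold sgn
  split_ifs <;> norm_num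

theorem gg_neg (N : ℕ) (s : ℤ) (v : ℂ) (c : ℤ) : gg N s v (-c) = gg N s v c := by
  unfold gg sgn
  rw [abs_neg, neg_sq]

theorem sgn_pow {N d : ℕ} (hd : d < N) : sgn N (2 * (N : ℤ) - 1 - 2 * d) = (-1) ^ d := by
  unfold sgn
  have h0 : (0 : ℤ) ≤ 2 * (N : ℤ) - 1 - 2 * d := by omega
  rw [abs_of_nonneg h0]
  have e : 2 * (N : ℤ) - 1 - (2 * (N : ℤ) - 1 - 2 * d) = 2 * d := by ring
  rw [e]
  rcases Nat.even_or_odd' d with ⟨k, hk | hk⟩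
  · rw [if_pos ⟨k, by rw [hk]; push_cast; ring⟩, hk, pow_mul]
    norm_num
  · rw [if_neg (by rw [hk]; push_cast; omega), hk, pow_succ, pow_mul]
    norm_num

/-- a crossing acts by scalars on the eigenspaces of the Casimir operator -/
theorem Rh_sc {u : ℂ} (hu : Gen u) (N : ℕ) :
    Sc u (W (u ^ 2) N) (Rh u (irr (u ^ 2) N) (irr (u ^ 2) N)) (2 * ((N : ℤ) - 1))
      (fun c => u ^ ((N : ℤ) ^ 2 - 1) * gg N 1 (u ^ 2) c) := by
  have hv := gen_v hu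
  have hV : IsMod (u ^ 2) (irr (u ^ 2) N) := Pool.Agent.H345J.irr_mod hv N
  have hM : IsMod (u ^ 2) (W (u ^ 2) N) := Pool.Agent.H345J.tens_mod hv hV hV
  have hR : IsInt (W (u ^ 2) N) (W (u ^ 2) N) (Rh u (irr (u ^ 2) N) (irr (u ^ 2) N)) :=
    Pool.Agent.H345J.taskInt u hu _ _ _ _ hV hV
  refine sc_of_hw hu hM hR (fun c => by rw [gg_neg]) ?_ ?_
  · intro p
    rw [Pool.Agent.H897R.J.W_wt]
    exact ⟨-(((p.1 : ℕ) : ℤ) + ((p.2 : ℕ) : ℤ)), by ring⟩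
  intro c y hyw hyE
  by_cases hy0 : y = 0
  · rw [hy0, mulVec_zero, smul_zero]
  obtain ⟨p, hp⟩ : ∃ p, y p ≠ 0 := by
    by_contra hh
    push Not at hh
    exact hy0 (funext hh)
  have hc0 : 0 ≤ c - 1 := by
    by_contra hneg
    exact hy0 (hw_neg hu hM hyw hyE (by omega))
  have h1 := hyw p hp
  rw [Pool.Agent.H897R.J.W_wt] at h1
  set d : ℕ := (p.1 : ℕ) + (p.2 : ℕ) with hd
  have hcd : c = 2 * (N : ℤ) - 1 - 2 * d := by
    rw [hd]; push_cast; linarith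
  have hdN : d < N := by omega
  have hy : ∀ q, y q ≠ 0 → (q.1 : ℕ) + q.2 = d := by
    intro q hq
    have h2 := hyw q hq
    rw [Pool.Agent.H897R.J.W_wt] at h2
    omega
  have hX := Pool.Agent.H897R.J.X_uniq hu hdN hy hyE
  have heig := Pool.Agent.H897R.J.eig hu hM hR ⟨d, hdN⟩
  -- the action on the highest weight vector
  have hQ : Rh u (irr (u ^ 2) N) (irr (u ^ 2) N) *ᵥ Pool.Agent.H897R.J.X (u ^ 2) N d =
      Pool.Agent.H550R3.Jones.lam u N ⟨d, hdN⟩ • Pool.Agent.H897R.J.X (u ^ 2) N d := by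
    have hcc : 0 < Pool.Agent.H550R3.Jones.cc N ⟨d, hdN⟩ := by
      unfold Pool.Agent.H550R3.Jones.cc
      change 0 < 2 * N - 1 - 2 * d
      omega
    funext q
    have h3 := congrFun (congrFun heig q) ⟨0, hcc⟩
    rw [Pool.Agent.H897R.J.mul_phi] at h3
    have h4 : Pool.Agent.H897R.J.bas (u ^ 2) N d 0 = Pool.Agent.H897R.J.X (u ^ 2) N d := by
      unfold Pool.Agent.H897R.J.bas
      simp [Pool.Agent.H897R.J.Fp, brf]
    change (Rh u (irr (u ^ 2) N) (irr (u ^ 2) N) *ᵥ Pool.Agent.H897R.J.bas (u ^ 2) N d 0) q =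
      Pool.Agent.H550R3.Jones.lam u N ⟨d, hdN⟩ * Pool.Agent.H897R.J.bas (u ^ 2) N d 0 q at h3
    rw [h4] at h3
    exact h3
  rw [hX, mulVec_smul, hQ, smul_comm]
  congr 1
  -- the eigenvalue
  unfold Pool.Agent.H550R3.Jones.lam gg
  have hcc : ((Pool.Agent.H550R3.Jones.cc N ⟨d, hdN⟩ : ℕ) : ℤ) = 2 * N - 1 - 2 * d := by
    unfold Pool.Agent.H550R3.Jones.cc
    change ((2 * N - 1 - 2 * d : ℕ) : ℤ) = _
    omega
  rw [hcc, hcd, sgn_pow hdN]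
  have e1 : ((2 * (N : ℤ) - 1 - 2 * d) ^ 2 - 1) / 2 = 2 * (((N : ℤ) - 1 - d) * (N - d)) := by
    rw [show ((2 * (N : ℤ) - 1 - 2 * d) ^ 2 - 1) = 2 * (2 * (((N : ℤ) - 1 - d) * (N - d))) from by ring]
    exact Int.mul_ediv_cancel_left _ (by norm_num)
  have e2 : ((2 * (N : ℤ) - 1 - 2 * d) ^ 2 - 1) / 4 = ((N : ℤ) - 1 - d) * (N - d) := by
    rw [show ((2 * (N : ℤ) - 1 - 2 * d) ^ 2 - 1) = 4 * (((N : ℤ) - 1 - d) * (N - d)) from by ring]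
    exact Int.mul_ediv_cancel_left _ (by norm_num)
  rw [e1, e2, one_mul]
  have e3 : (u ^ 2) ^ (((N : ℤ) - 1 - d) * (N - d) - ((N : ℤ) ^ 2 - 1)) =
      u ^ (2 * (((N : ℤ) - 1 - d) * (N - d) - ((N : ℤ) ^ 2 - 1))) := by
    rw [← zpow_natCast u 2, ← _root_.zpow_mul]; norm_num
  rw [e3]
  have e4 : u ^ (2 * (((N : ℤ) - 1 - d) * (N - d)) - ((N : ℤ) ^ 2 - 1)) =
      u ^ ((N : ℤ) ^ 2 - 1) * u ^ (2 * (((N : ℤ) - 1 - d) * (N - d) - ((N : ℤ) ^ 2 - 1))) := by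
    rw [← zpow_add₀ hu.1]
    congr 1
    ring
  rw [e4]
  ring

theorem gg_ne {N : ℕ} {s : ℤ} {v : ℂ} (hv : v ≠ 0) (c : ℤ) : gg N s v c ≠ 0 := by
  unfold gg
  refine mul_ne_zero ?_ (zpow_ne_zero _ hv)
  intro h
  have := sgn_sq N c
  rw [h] at this
  norm_num at this

theorem gg_inv {N : ℕ} {v : ℂ} (hv : v ≠ 0) (c : ℤ) : gg N 1 v c * gg N (-1) v c = 1 := by
  unfold gg
  have h := sgn_sq N c
  have e : v ^ ((1 : ℤ) * ((c ^ 2 - 1) / 4 - ((N : ℤ) ^ 2 - 1))) *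
      v ^ (-1 * ((c ^ 2 - 1) / 4 - ((N : ℤ) ^ 2 - 1))) = 1 := by
    rw [← zpow_add₀ hv]
    have : (1 : ℤ) * ((c ^ 2 - 1) / 4 - ((N : ℤ) ^ 2 - 1)) +
      -1 * ((c ^ 2 - 1) / 4 - ((N : ℤ) ^ 2 - 1)) = 0 := by ring
    rw [this, zpow_zero]
  linear_combination (v ^ ((1 : ℤ) * ((c ^ 2 - 1) / 4 - ((N : ℤ) ^ 2 - 1))) *
      v ^ (-1 * ((c ^ 2 - 1) / 4 - ((N : ℤ) ^ 2 - 1)))) * h + e

theorem Sc.inv {ι : Type} [Fintype ι] [DecidableEq ι] {u : ℂ} {M : WM ι} {T T' : Matrix ι ι ℂ}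
    {p : ℤ} {f g : ℤ → ℂ} (h : Sc u M T p f) (hT : T' * T = 1) (hfg : ∀ c, f c * g c = 1) :
    Sc u M T' p g := by
  intro c hc y hy
  have h1 := h c hc y hy
  have h2 : T' *ᵥ (T *ᵥ y) = y := by rw [mulVec_mulVec, hT, one_mulVec]
  rw [h1, mulVec_smul] at h2
  have h3 : g c • (f c • (T' *ᵥ y)) = g c • y := by rw [h2]
  rw [smul_smul, mul_comm, hfg, one_smul] at h3
  exact h3

/-- the crossings -/
theorem cx_sc {u : ℂ} (hu : Gen u) (N : ℕ) (σ : Bool) :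
    Sc u (W (u ^ 2) N) (cx σ N (u ^ 2)) (2 * ((N : ℤ) - 1)) (gg N (sg σ) (u ^ 2)) := by
  have hv := gen_v hu
  have hV : IsMod (u ^ 2) (irr (u ^ 2) N) := Pool.Agent.H345J.irr_mod hv N
  have hi := Pool.Agent.H345J.taskInv u hu _ _ _ _ hV hV
  cases σ
  · change Sc u (W (u ^ 2) N) (crossN N (u ^ 2)) _ (gg N (-1) (u ^ 2))
    rw [(Pool.Agent.H559R3.J.taskCross u hu N).2]
    refine Sc.congr (f := fun c => u ^ ((N : ℤ) ^ 2 - 1) *
      (u ^ (-((N : ℤ) ^ 2 - 1)) * gg N (-1) (u ^ 2) c)) ?_ ?_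
    · refine Sc.smul (f := fun c => u ^ (-((N : ℤ) ^ 2 - 1)) * gg N (-1) (u ^ 2) c) ?_ _
      refine Sc.inv (Rh_sc hu N) hi.1 ?_
      intro c
      have h1 := gg_inv (N := N) hv c
      have h2 : u ^ ((N : ℤ) ^ 2 - 1) * u ^ (-((N : ℤ) ^ 2 - 1)) = 1 := by
        rw [← zpow_add₀ hu.1, add_neg_cancel, zpow_zero]
      linear_combination (u ^ ((N : ℤ) ^ 2 - 1) * u ^ (-((N : ℤ) ^ 2 - 1))) * h1 + h2
    · intro c _
      beta_reduce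
      rw [← mul_assoc, ← zpow_add₀ hu.1, add_neg_cancel, zpow_zero, one_mul]
  · change Sc u (W (u ^ 2) N) (crossP N (u ^ 2)) _ (gg N 1 (u ^ 2))
    rw [(Pool.Agent.H559R3.J.taskCross u hu N).1]
    refine Sc.congr ((Rh_sc hu N).smul _) ?_
    intro c _
    beta_reduce
    rw [← mul_assoc, ← zpow_add₀ hu.1, neg_add_cancel, zpow_zero, one_mul]

end Pool.Agent.Q191.SH
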