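import Pool.Agent.Q191.SH.Two

/-!
# Twist regions of two strands with circles
-/

set_option autoImplicit false

namespace Pool.Agent.Q191.SH

open Matrix Finset Filter Topology
open scoped Kronecker
open Pool.Agent.H550R3.Jones (WM IsMod IsInt Gen br brf tens irr nb R Rinv Rh Rhi crossP crossN ptr W)
open Pool.Agent.H897R.J (HasWt gen_br gen_v br_neg br_zero wt_F)
open Pool.Agent.W715.VC (rt)
open GapVol (lob)
open Pool.Agent.Q191.FT
open Pool.Agent.Q191.LB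
open scoped Real

variable {N : ℕ}

/-! ### Two strands -/

/-- states of two strands -/
def e2 (N : ℕ) : Tp N 2 ≃ Fin N × Fin N where
  toFun x := (x.1.2, x.2)
  invFun p := (((), p.1), p.2)
  left_inv _ := rfl
  right_inv _ := rfl

/-- a matrix on two strands -/
def C2 (A : Matrix (Fin N × Fin N) (Fin N × Fin N) ℂ) : Matrix (Tp N 2) (Tp N 2) ℂ :=
  A.submatrix (e2 N) (e2 N)

theorem C2_mul (A B : Matrix (Fin N × Fin N) (Fin N × Fin N) ℂ) : C2 (A * B) = C2 A * C2 B :=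
  (Matrix.submatrix_mul_equiv A B (e2 N) (e2 N) (e2 N)).symm

theorem C2_one : C2 (1 : Matrix (Fin N × Fin N) (Fin N × Fin N) ℂ) = 1 :=
  Matrix.submatrix_one_equiv (e2 N)

theorem C2_pow (A : Matrix (Fin N × Fin N) (Fin N × Fin N) ℂ) : ∀ m : ℕ, C2 (A ^ m) = C2 A ^ m
  | 0 => by rw [pow_zero, pow_zero, C2_one]
  | m + 1 => by rw [pow_succ, pow_succ, C2_mul, C2_pow A m]

theorem K_triv (v : ℂ) (n : ℤ) : triv.K v n = 1 := by
  ext i j
  simp [WM.K, triv]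

theorem kron_unit {A : Matrix Unit Unit ℂ} (hA : A = 1) (B : Matrix (Fin N) (Fin N) ℂ)
    (p q : Unit × Fin N) : (A ⊗ₖ B) p q = B p.2 q.2 := by
  rw [kroneckerMap_apply, hA]
  have : (1 : Matrix Unit Unit ℂ) p.1 q.1 = 1 := rfl
  rw [this, one_mul]

theorem tens_triv_E (v : ℂ) (V : WM (Fin N)) (p q : Unit × Fin N) :
    (tens v triv V).E p q = V.E p.2 q.2 := by
  change (triv.E ⊗ₖ V.K v 1 + (1 : Matrix Unit Unit ℂ) ⊗ₖ V.E) p q = _
  have : triv.E = 0 := rfl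
  rw [this, zero_kronecker, zero_add, kron_unit rfl]

theorem tens_triv_F (v : ℂ) (V : WM (Fin N)) (p q : Unit × Fin N) :
    (tens v triv V).F p q = V.F p.2 q.2 := by
  change (triv.F ⊗ₖ (1 : Matrix (Fin N) (Fin N) ℂ) + triv.K v (-1) ⊗ₖ V.F) p q = _
  have : triv.F = 0 := rfl
  rw [this, zero_kronecker, zero_add, kron_unit (K_triv v (-1))]

theorem one_unit (p q : Unit × Fin N) :
    (1 : Matrix (Unit × Fin N) (Unit × Fin N) ℂ) p q = (1 : Matrix (Fin N) (Fin N) ℂ) p.2 q.2 := by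
  rw [Matrix.one_apply, Matrix.one_apply]
  have : p = q ↔ p.2 = q.2 := ⟨fun h => by rw [h], fun h => Prod.ext rfl h⟩
  simp only [this]

theorem K_unit (v : ℂ) (n : ℤ) (V : WM (Fin N)) (p q : Unit × Fin N) :
    (tens v triv V).K v n p q = V.K v n p.2 q.2 := by
  unfold WM.K
  rw [diagonal_apply, diagonal_apply]
  have h : p = q ↔ p.2 = q.2 := ⟨fun h => by rw [h], fun h => Prod.ext rfl h⟩
  have h2 : (tens v triv V).wt p = V.wt p.2 := by
    change (0 : ℤ) + V.wt p.2 = V.wt p.2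
    rw [zero_add]
  simp only [h, h2]

theorem MM2_E (v : ℂ) (N : ℕ) : (MM v N 2).E = (W v N).E.submatrix (e2 N) (e2 N) := by
  ext p q
  change (tens v triv (irr v N)).E p.1 q.1 * (irr v N).K v 1 p.2 q.2 +
    (1 : Matrix (Unit × Fin N) (Unit × Fin N) ℂ) p.1 q.1 * (irr v N).E p.2 q.2 =
    (irr v N).E p.1.2 q.1.2 * (irr v N).K v 1 p.2 q.2 +
      (1 : Matrix (Fin N) (Fin N) ℂ) p.1.2 q.1.2 * (irr v N).E p.2 q.2
  exact congrArg₂ (· + ·) (congrArg₂ (· * ·) (tens_triv_E v (irr v N) p.1 q.1) rfl)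
    (congrArg₂ (· * ·) (one_unit p.1 q.1) rfl)

theorem MM2_F (v : ℂ) (N : ℕ) : (MM v N 2).F = (W v N).F.submatrix (e2 N) (e2 N) := by
  ext p q
  change (tens v triv (irr v N)).F p.1 q.1 * (1 : Matrix (Fin N) (Fin N) ℂ) p.2 q.2 +
    (tens v triv (irr v N)).K v (-1) p.1 q.1 * (irr v N).F p.2 q.2 =
    (irr v N).F p.1.2 q.1.2 * (1 : Matrix (Fin N) (Fin N) ℂ) p.2 q.2 +
      (irr v N).K v (-1) p.1.2 q.1.2 * (irr v N).F p.2 q.2
  exact congrArg₂ (· + ·) (congrArg₂ (· * ·) (tens_triv_F v (irr v N) p.1 q.1) rfl)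
    (congrArg₂ (· * ·) (K_unit v (-1) (irr v N) p.1 q.1) rfl)

theorem MM2_wt (v : ℂ) (N : ℕ) (x : Tp N 2) : (MM v N 2).wt x = (W v N).wt (e2 N x) := by
  change ((0 : ℤ) + (irr v N).wt x.1.2) + (irr v N).wt x.2 = (irr v N).wt x.1.2 + (irr v N).wt x.2
  rw [zero_add]

theorem Cas_MM2 (v : ℂ) (N : ℕ) :
    Cas v (MM v N 2) = (Cas v (W v N)).submatrix (e2 N) (e2 N) := by
  unfold Cas
  rw [MM2_E, MM2_F, Matrix.submatrix_mul_equiv, Matrix.submatrix_add]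
  congr 1
  ext p q
  rw [Matrix.submatrix_apply, diagonal_apply, diagonal_apply, MM2_wt]
  simp only [(e2 N).injective.eq_iff]

theorem sub_mulVec (A : Matrix (Fin N × Fin N) (Fin N × Fin N) ℂ) (y : Tp N 2 → ℂ) :
    A.submatrix (e2 N) (e2 N) *ᵥ y = (A *ᵥ (y ∘ (e2 N).symm)) ∘ (e2 N) :=
  Matrix.submatrix_mulVec_equiv A y (e2 N) (e2 N)

theorem Sc.two {u : ℂ} {T : Matrix (Fin N × Fin N) (Fin N × Fin N) ℂ} {p : ℤ} {f : ℤ → ℂ}
    (h : Sc u (W (u ^ 2) N) T p f) : Sc u (MM (u ^ 2) N 2) (C2 T) p f := by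
  intro c hc y hy
  rw [Cas_MM2, sub_mulVec] at hy
  have h1 : Cas (u ^ 2) (W (u ^ 2) N) *ᵥ (y ∘ (e2 N).symm) =
      FT.lam (u ^ 2) c • (y ∘ (e2 N).symm) := by
    funext p
    have := congrFun hy ((e2 N).symm p)
    rw [Function.comp_apply, Equiv.apply_symm_apply] at this
    exact this
  have h2 := h c hc _ h1
  unfold C2
  rw [sub_mulVec, h2]
  funext x
  rw [Function.comp_apply, Pi.smul_apply, Pi.smul_apply, Function.comp_apply,
    Equiv.symm_apply_apply]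

/-! ### Divided differences of the eigenvalues of a crossing -/

/-- the values at the nodes -/
theorem gg_node {v : ℂ} (N : ℕ) (s : ℤ) {a i : ℕ} :
    gg N s v ((2 * a : ℕ) + 1 + 2 * (i : ℤ)) =
      (-1) ^ (N + 1 + (a + i)) * v ^ (s * (((a : ℤ) + i) * (a + i + 1) - ((N : ℤ) ^ 2 - 1))) := by
  unfold gg
  have e1 : (((2 * a : ℕ) : ℤ) + 1 + 2 * (i : ℤ)) = 2 * ((a : ℤ) + i) + 1 := by push_cast; ring
  rw [e1]
  have e2 : ((2 * ((a : ℤ) + i) + 1) ^ 2 - 1) / 4 = ((a : ℤ) + i) * (a + i + 1) := by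
    rw [show ((2 * ((a : ℤ) + i) + 1) ^ 2 - 1) = 4 * (((a : ℤ) + i) * (a + i + 1)) from by ring]
    exact Int.mul_ediv_cancel_left _ (by norm_num)
  rw [e2]
  congr 1
  unfold sgn
  have h0 : (0 : ℤ) ≤ 2 * ((a : ℤ) + i) + 1 := by positivity
  rw [abs_of_nonneg h0]
  rcases Nat.even_or_odd' (N + 1 + (a + i)) with ⟨k, hk | hk⟩
  · rw [if_pos, hk, pow_mul]
    · norm_num
    · refine ⟨(N : ℤ) - k, ?_⟩
      have : ((N + 1 + (a + i) : ℕ) : ℤ) = ((2 * k : ℕ) : ℤ) := by rw [hk]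
      push_cast at this
      linarith
  · rw [if_neg, hk, pow_succ, pow_mul]
    · norm_num
    · rintro ⟨q, hq⟩
      have : ((N + 1 + (a + i) : ℕ) : ℤ) = ((2 * k + 1 : ℕ) : ℤ) := by rw [hk]
      push_cast at this
      omega

theorem ident {v : ℂ} (hv : v ≠ 0) {s : ℤ} (hs : s = 1 ∨ s = -1) (a l : ℤ) :
    v ^ (s * (2 * a + 2 + l)) * br v (a + 1) + br v (a + l + 1) =
      v ^ (s * (a + 1)) * br v (2 * a + 2 + l) := by
  unfold br
  have z : ∀ m n : ℤ, v ^ m * v ^ n = v ^ (m + n) := fun m n => (zpow_add₀ hv m n).symm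
  rcases hs with rfl | rfl
  · rw [mul_sub, mul_sub, z, z, z, z]
    have e1 : 1 * (2 * a + 2 + l) + -(a + 1) = a + l + 1 := by ring
    have e2 : (1 : ℤ) * (a + 1) + (2 * a + 2 + l) = 1 * (2 * a + 2 + l) + (a + 1) := by ring
    have e3 : (1 : ℤ) * (a + 1) + -(2 * a + 2 + l) = -(a + l + 1) := by ring
    rw [e1, e2, e3]
    ring
  · rw [mul_sub, mul_sub, z, z, z, z]
    have e1 : -1 * (2 * a + 2 + l) + (a + 1) = -(a + l + 1) := by ring
    have e2 : (-1 : ℤ) * (a + 1) + (2 * a + 2 + l) = a + l + 1 := by ring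
    have e3 : (-1 : ℤ) * (a + 1) + -(2 * a + 2 + l) = -1 * (2 * a + 2 + l) + -(a + 1) := by ring
    rw [e1, e2, e3]
    ring

/-- the divided differences -/
theorem dd_gg {u : ℂ} (hu : Gen u) (N : ℕ) {s : ℤ} (hs : s = 1 ∨ s = -1) : ∀ (l a : ℕ),
    brf (u ^ 2) l * dd (gg N s (u ^ 2)) (u ^ 2) (2 * a) l * brf (u ^ 2) (a + l) =
      (-1) ^ (N + 1 + (a + l)) *
        (u ^ 2) ^ (s * (((a : ℤ) + l) * (a + 1) - ((N : ℤ) ^ 2 - 1))) * brf (u ^ 2) a
  | 0, a => by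
    rw [dd_zero]
    have h := gg_node (v := u ^ 2) N s (a := a) (i := 0)
    have e : (((2 * a : ℕ) : ℤ) + 1 + 2 * ((0 : ℕ) : ℤ)) = ((2 * a : ℕ) : ℤ) + 1 := by push_cast; ring
    rw [e] at h
    rw [h]
    have e0 : brf (u ^ 2) 0 = 1 := by simp [brf]
    rw [e0, one_mul, add_zero]
    push_cast
    have e3 : ((a : ℤ) + 0) * ((a : ℤ) + 0 + 1) = ((a : ℤ) + 0) * ((a : ℤ) + 1) := by ring
    rw [e3]
  | l + 1, a => by
    have hv := gen_v hu
    have h1 := dd_gg hu N hs l a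
    have h2 := dd_gg hu N hs l (a + 1)
    have h3 := dd_succ hu (gg N s (u ^ 2)) (2 * a) l
    have e2 : 2 * (a + 1) = 2 * a + 2 := by ring
    rw [e2] at h2
    have hne : br (u ^ 2) (((2 * a : ℕ) : ℤ) + 2 + l) ≠ 0 := gen_br hu (by omega)
    have hb := Pool.Agent.H559R3.J.brf_ne hu (a + l)
    have e4 : a + 1 + l = a + l + 1 := by ring
    have e5 : a + (l + 1) = a + l + 1 := by ring
    rw [e4, brf_succ', brf_succ'] at h2
    rw [e5, brf_succ', brf_succ']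
    have hid := ident hv hs (a : ℤ) (l : ℤ)
    -- the exponents
    have x1 : (u ^ 2) ^ (s * ((((a + 1 : ℕ) : ℤ) + l) * (((a + 1 : ℕ) : ℤ) + 1) - ((N : ℤ) ^ 2 - 1))) =
        (u ^ 2) ^ (s * (((a : ℤ) + l) * (a + 1) - ((N : ℤ) ^ 2 - 1))) *
          (u ^ 2) ^ (s * (2 * (a : ℤ) + 2 + l)) := by
      rw [← zpow_add₀ hv]; congr 1; push_cast; ring
    have x2 : (u ^ 2) ^ (s * (((a : ℤ) + ((l + 1 : ℕ) : ℤ)) * (a + 1) - ((N : ℤ) ^ 2 - 1))) =
        (u ^ 2) ^ (s * (((a : ℤ) + l) * (a + 1) - ((N : ℤ) ^ 2 - 1))) *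
          (u ^ 2) ^ (s * ((a : ℤ) + 1)) := by
      rw [← zpow_add₀ hv]; congr 1; push_cast; ring
    rw [x1] at h2
    rw [x2]
    have s1 : (-1 : ℂ) ^ (N + 1 + (a + l + 1)) = -(-1) ^ (N + 1 + (a + l)) := by
      have : N + 1 + (a + l + 1) = (N + 1 + (a + l)) + 1 := by ring
      rw [this, pow_succ]; ring
    rw [s1] at h2 ⊢
    have b1 : (((a + l : ℕ) : ℤ) + 1) = (a : ℤ) + l + 1 := by push_cast; ring
    have b2 : (((2 * a : ℕ) : ℤ) + 2 + l) = 2 * (a : ℤ) + 2 + l := by push_cast; ring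
    rw [b1] at h2 ⊢
    rw [b2] at h3 hne
    apply mul_right_cancel₀ (mul_ne_zero hne hb)
    generalize (u ^ 2) ^ (s * (((a : ℤ) + l) * (a + 1) - ((N : ℤ) ^ 2 - 1))) = E at *
    generalize (u ^ 2) ^ (s * (2 * (a : ℤ) + 2 + l)) = E1 at *
    generalize (u ^ 2) ^ (s * ((a : ℤ) + 1)) = E2 at *
    generalize br (u ^ 2) (2 * (a : ℤ) + 2 + l) = X at *
    generalize br (u ^ 2) ((a : ℤ) + l + 1) = Y at *
    generalize br (u ^ 2) ((a : ℤ) + 1) = Z at *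
    generalize br (u ^ 2) ((l : ℤ) + 1) = L at *
    generalize dd (gg N s (u ^ 2)) (u ^ 2) (2 * a) (l + 1) = D at *
    generalize dd (gg N s (u ^ 2)) (u ^ 2) (2 * a + 2) l = D1 at *
    generalize dd (gg N s (u ^ 2)) (u ^ 2) (2 * a) l = D0 at *
    generalize brf (u ^ 2) l = Bl at *
    generalize brf (u ^ 2) (a + l) = Bal at *
    generalize brf (u ^ 2) a = Ba at *
    generalize (-1 : ℂ) ^ (N + 1 + (a + l)) = S at *
    linear_combination (Bl * Bal * Y * Bal) * h3 + Bal * h2 - Y * Bal * h1 - (S * E * Ba * Bal) * hid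

end Pool.Agent.Q191.SH
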