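import Pool.Agent.Q191.SH.Two2

/-!
# Twist regions of two strands with circles: the sharp bound
-/

set_option autoImplicit false

namespace Pool.Agent.Q191.SH

open Matrix Finset Filter Topology
open Pool.Agent.H550R3.Jones (WM IsMod IsInt Gen br brf tens irr nb R Rinv Rh Rhi crossP crossN ptr W)
open Pool.Agent.H897R.J (HasWt gen_br gen_v br_neg br_zero wt_F)
open Pool.Agent.W715.VC (rt)
open GapVol (lob)
open Pool.Agent.Q191.FT
open Pool.Agent.Q191.LB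
open scoped Real

/-- `m` crossings of two strands and `p` circles around them -/
noncomputable def X2 (σ : Bool) (N m p : ℕ) (v : ℂ) : Matrix (Tp N 2) (Tp N 2) ℂ :=
  C2 (cx σ N v) ^ m * BB v (crossP N v) 2 ^ p

/-- its eigenvalues -/
noncomputable def f2 (N : ℕ) (s : ℤ) (m p : ℕ) (v : ℂ) (c : ℤ) : ℂ :=
  gg N s v c ^ m * (v ^ (-((2 : ℕ) * ((N : ℤ) ^ 2 - 1))) * chi v N c) ^ p

theorem X2_sc {u : ℂ} (hu : Gen u) (σ : Bool) (N m p : ℕ) :
    Sc u (MM (u ^ 2) N 2) (X2 σ N m p (u ^ 2)) ((2 : ℕ) * ((N : ℤ) - 1))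
      (f2 N (sg σ) m p (u ^ 2)) := by
  have h1 : Sc u (MM (u ^ 2) N 2) (BB (u ^ 2) (crossP N (u ^ 2)) 2 ^ p) ((2 : ℕ) * ((N : ℤ) - 1))
      (fun c => ((u ^ 2) ^ (-((2 : ℕ) * ((N : ℤ) ^ 2 - 1))) * chi (u ^ 2) N c) ^ p) := by
    have h := X_sc hu true N 2 0 p
    unfold XX at h
    rw [pow_zero, one_mul] at h
    refine Pool.Agent.Q191.LB.Sc.congr h ?_
    intro c _
    unfold ff
    rw [pow_zero, one_mul]
  have h2 : Sc u (MM (u ^ 2) N 2) (C2 (cx σ N (u ^ 2))) ((2 : ℕ) * ((N : ℤ) - 1))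
      (gg N (sg σ) (u ^ 2)) := by
    have h := Sc.two (cx_sc hu N σ)
    exact h
  exact (h2.pow m).mul h1

theorem X2_diff {N : ℕ} {v : ℂ} (hv : v ≠ 0) (hN : ∀ k : ℕ, 0 < k → k < N → br v k ≠ 0) (σ : Bool)
    (m p : ℕ) : DA (fun w => X2 σ N m p w) v := by
  have h1 : DA (fun w => cx σ N w) v := by
    cases σ
    · exact crossN_diff hv hN
    · exact crossP_diff hv hN
  have h2 : DA (fun w => C2 (cx σ N w)) v := fun i j => h1 (e2 N i) (e2 N j)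
  exact (h2.pow m).mul ((DA_BB hv (crossP_diff hv hN) 2).pow p)

theorem gg_sq {N : ℕ} {s : ℤ} {v : ℂ} (hv : v ≠ 0) {c : ℤ} (hc : (2 : ℤ) ∣ c - 1) :
    gg N s v c * gg N s v c = v ^ hh 2 N s c := by
  obtain ⟨k, hk⟩ := hc
  have hc2 : c = 2 * k + 1 := by linarith
  unfold gg hh
  have e1 : (c ^ 2 - 1) / 4 = k * (k + 1) := by
    rw [show c ^ 2 - 1 = 4 * (k * (k + 1)) from by rw [hc2]; ring]
    exact Int.mul_ediv_cancel_left _ (by norm_num)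
  have e2 : (c ^ 2 - 1 - (2 : ℕ) ^ 2 * ((N : ℤ) ^ 2 - 1)) / 2 =
      2 * (k * (k + 1)) - 2 * ((N : ℤ) ^ 2 - 1) := by
    rw [show c ^ 2 - 1 - (2 : ℕ) ^ 2 * ((N : ℤ) ^ 2 - 1) =
      2 * (2 * (k * (k + 1)) - 2 * ((N : ℤ) ^ 2 - 1)) from by rw [hc2]; push_cast; ring]
    exact Int.mul_ediv_cancel_left _ (by norm_num)
  rw [e1, e2]
  have e3 : v ^ (s * (k * (k + 1) - ((N : ℤ) ^ 2 - 1))) * v ^ (s * (k * (k + 1) - ((N : ℤ) ^ 2 - 1))) =
      v ^ (s * (2 * (k * (k + 1)) - 2 * ((N : ℤ) ^ 2 - 1))) := by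
    rw [← zpow_add₀ hv]
    congr 1
    ring
  linear_combination (v ^ (s * (k * (k + 1) - ((N : ℤ) ^ 2 - 1))) *
    v ^ (s * (k * (k + 1) - ((N : ℤ) ^ 2 - 1)))) * sgn_sq N c + e3

theorem f2_even {N : ℕ} {s : ℤ} {v : ℂ} (hv : v ≠ 0) (m p : ℕ) {c : ℤ} (hc : (2 : ℤ) ∣ c - 1) :
    f2 N s (2 * m) p v c = ff 2 N s m p v c := by
  unfold f2 ff
  rw [pow_mul, pow_two, gg_sq hv hc]

theorem f2_odd {N : ℕ} {s : ℤ} {v : ℂ} (hv : v ≠ 0) (m p : ℕ) {c : ℤ} (hc : (2 : ℤ) ∣ c - 1) :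
    f2 N s (2 * m + 1) p v c = ff 2 N s m p v c * gg N s v c := by
  unfold f2 ff
  rw [pow_succ, pow_mul, pow_two, gg_sq hv hc]
  ring

theorem near_brf {K M N : ℕ} {ρ : ℝ} (h : Rad K M N ρ) {v : ℂ}
    (hv : v ∈ Metric.closedBall (rt N) ρ) {n : ℕ} (hn : n < N) : brf v n ≠ 0 :=
  Pool.Agent.H756R3.J.brf_ne (near_ne h (mem_closedBall_iff_norm.1 hv)).2 hn

theorem reg_f2 {N : ℕ} {s : ℤ} (hs : s = 1 ∨ s = -1) (m p M : ℕ) (t0 : Tp N 2) {L : ℕ}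
    (hL : L ∈ rg N 2 t0) : ∃ G : ℂ → ℂ,
      (∀ ρ, Rad 2 M N ρ → DifferentiableOn ℂ G (Metric.closedBall (rt N) ρ)) ∧
      ∀ u : ℂ, Gen u → brf (u ^ 2) L * dd (f2 N s m p (u ^ 2)) (u ^ 2) (cw0 N 2 t0) L =
        G (u ^ 2) := by
  have hpar := cw0_par 2 t0
  obtain ⟨a, ha⟩ : ∃ a : ℕ, cw0 N 2 t0 = 2 * a := by
    obtain ⟨k, hk⟩ := hpar
    push_cast at hk
    exact ⟨cw0 N 2 t0 / 2, by omega⟩
  have haL : a + L < N := by
    have h1 := (mem_filter.1 hL).2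
    rw [ha] at h1
    push_cast at h1
    omega
  rw [ha] at hpar ⊢
  have hodd : ∀ i : ℕ, (2 : ℤ) ∣ (((2 * a : ℕ) : ℤ) + 1 + 2 * (i : ℤ)) - 1 := fun i =>
    ⟨a + i, by push_cast; ring⟩
  rcases Nat.even_or_odd' m with ⟨m', hm | hm⟩
  · obtain ⟨G, hG, hG2⟩ := RegF.ff 2 N hs m' p (2 * a) hpar L
    refine ⟨G, fun ρ hρ v hv => ?_, fun u hu => ?_⟩
    · have h1 := (near_ne hρ (mem_closedBall_iff_norm.1 hv)).1
      exact (hG.differentiableAt (zero_open.mem_nhds h1)).differentiableWithinAt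
    · rw [← hG2 u hu, hm]
      congr 1
      exact dd_congr (fun i => f2_even (gen_v hu) m' p (hodd i)) L
  · choose F hF using fun l => RegF.ff 2 N hs m' p (2 * a) hpar l
    refine ⟨fun v => ∑ l ∈ range (L + 1), qq v l (L - l) * (F l v *
      ((-1) ^ (N + 1 + (a + L)) * v ^ (s * (((a : ℤ) + L) * (a + l + 1) - ((N : ℤ) ^ 2 - 1))) *
        brf v (a + l) / brf v (a + L))), fun ρ hρ v hv => ?_, fun u hu => ?_⟩
    · have h1 := (near_ne hρ (mem_closedBall_iff_norm.1 hv)).1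
      have h2 := near_brf hρ hv haL
      refine DifferentiableAt.differentiableWithinAt ?_
      refine DifferentiableAt.fun_sum fun l _ => ?_
      have d1 : DifferentiableAt ℂ (fun v => qq v l (L - l)) v :=
        (qq_diff l (L - l)).differentiableAt (zero_open.mem_nhds h1)
      have d2 : DifferentiableAt ℂ (fun v => F l v) v :=
        ((hF l).1).differentiableAt (zero_open.mem_nhds h1)
      have d3 : DifferentiableAt ℂ (fun v : ℂ => v ^ (s * (((a : ℤ) + L) * (a + l + 1) -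
          ((N : ℤ) ^ 2 - 1)))) v := differentiableAt_zpow.2 (Or.inl h1)
      exact d1.mul (d2.mul ((((d3.const_mul _)).mul (brf_diff h1 (a + l))).div
        (brf_diff h1 (a + L)) h2))
    · have hv := gen_v hu
      have e1 : dd (f2 N s m p (u ^ 2)) (u ^ 2) (2 * a) L =
          dd (fun c => ff 2 N s m' p (u ^ 2) c * gg N s (u ^ 2) c) (u ^ 2) (2 * a) L :=
        dd_congr (fun i => by rw [hm]; exact f2_odd hv m' p (hodd i)) L
      rw [e1, dd_mul hu, mul_sum]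
      refine sum_congr rfl fun l hl => ?_
      rw [mem_range] at hl
      have h1 := qq_brf hv l (L - l)
      have e : l + (L - l) = L := by omega
      rw [e] at h1
      have h2 := (hF l).2 u hu
      have h3 := dd_gg hu N hs (L - l) (a + l)
      have e3 : 2 * (a + l) = 2 * a + 2 * l := by ring
      have e4 : a + l + (L - l) = a + L := by omega
      have e5 : (((a + l : ℕ) : ℤ) + ((L - l : ℕ) : ℤ)) = (a : ℤ) + L := by omega
      rw [e3, e4, e5] at h3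
      have hb := Pool.Agent.H559R3.J.brf_ne hu (a + L)
      have h4 : brf (u ^ 2) (L - l) * dd (gg N s (u ^ 2)) (u ^ 2) (2 * a + 2 * l) (L - l) =
          (-1) ^ (N + 1 + (a + L)) * (u ^ 2) ^ (s * (((a : ℤ) + L) * (a + l + 1) -
            ((N : ℤ) ^ 2 - 1))) * brf (u ^ 2) (a + l) / brf (u ^ 2) (a + L) := by
        rw [eq_div_iff hb, h3]
        push_cast
        ring
      rw [← h1, ← h4, ← h2]
      ring

theorem f2_bound {m p M N : ℕ} {r : ℝ} (h : Rad 2 M N r) (hm : m ≤ M) (hp : p ≤ M) {v : ℂ}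
    (hv : ‖v - rt N‖ = r) {s : ℤ} (hs : s = 1 ∨ s = -1) {c : ℕ} (hc : c ≤ 3 * (2 * N) + 1) :
    ‖f2 N s m p v c‖ ≤ 8 * (N : ℝ) ^ p := by
  have hn := h.near hv
  have hN2 : (2 : ℝ) ≤ N := by exact_mod_cast h.hN
  have hr0 := h.r0
  have hM : (0 : ℝ) ≤ M := Nat.cast_nonneg M
  have hmM : (m : ℝ) ≤ M := by exact_mod_cast hm
  have hpM : (p : ℝ) ≤ M := by exact_mod_cast hp
  have hmain := h.hr
  -- a general bound of powers
  have hpow : ∀ (e : ℤ) (j : ℕ), (j : ℝ) ≤ M → |(e : ℝ)| ≤ 32 * (((2 : ℕ) : ℝ) + 1) ^ 2 * (N : ℝ) ^ 2 →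
      ‖(v ^ e) ^ j‖ ≤ 2 := by
    intro e j hj he
    rw [← zpow_natCast, ← _root_.zpow_mul]
    apply hn.norm_zpow
    have h2 : |((e * j : ℤ) : ℝ)| = |(e : ℝ)| * j := by
      push_cast
      rw [abs_mul, abs_of_nonneg (Nat.cast_nonneg j : (0 : ℝ) ≤ j)]
    rw [h2]
    have hN3 : (N : ℝ) ^ 2 ≤ (N : ℝ) ^ 3 := pow_le_pow_right₀ (by linarith) (by norm_num)
    calc |(e : ℝ)| * j * r ≤ 32 * (((2 : ℕ) : ℝ) + 1) ^ 2 * (N : ℝ) ^ 2 * (M + 1) * r := by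
          gcongr
          linarith
      _ ≤ 32 * (((2 : ℕ) : ℝ) + 1) ^ 2 * (N : ℝ) ^ 3 * (M + 1) * r := by gcongr
      _ = 1 / 4 * (128 * (((2 : ℕ) : ℝ) + 1) ^ 2 * (N : ℝ) ^ 3 * ((M : ℝ) + 1) * r) := by ring
      _ ≤ 1 / 4 * 1 := by
          refine mul_le_mul_of_nonneg_left ?_ (by norm_num)
          exact hmain
      _ = 1 / 4 := by norm_num
  have h1 : ‖gg N s v c ^ m‖ ≤ 2 := by
    unfold gg
    rw [mul_pow, norm_mul]
    have hsg : ‖sgn N c ^ m‖ = 1 := by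
      have h2 : ‖sgn N (c : ℤ)‖ = 1 := by
        unfold sgn
        split_ifs <;> simp
      rw [norm_pow, h2, one_pow]
    rw [hsg, one_mul]
    apply hpow _ _ hmM
    have hq : |(((((c : ℤ) ^ 2 - 1) / 4 : ℤ)) : ℝ)| ≤ (c : ℝ) ^ 2 + 1 := by
      have hq1 : (((c : ℤ) ^ 2 - 1) / 4 : ℤ) ≤ (c : ℤ) ^ 2 := by
        have : (0 : ℤ) ≤ (c : ℤ) ^ 2 := by positivity
        omega
      have hq2 : (-1 : ℤ) ≤ (((c : ℤ) ^ 2 - 1) / 4 : ℤ) := by
        have : (0 : ℤ) ≤ (c : ℤ) ^ 2 := by positivity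
        omega
      have r1 : (((((c : ℤ) ^ 2 - 1) / 4 : ℤ)) : ℝ) ≤ (c : ℝ) ^ 2 := by exact_mod_cast hq1
      have r2 : (-1 : ℝ) ≤ (((((c : ℤ) ^ 2 - 1) / 4 : ℤ)) : ℝ) := by exact_mod_cast hq2
      rw [abs_le]
      constructor <;> nlinarith [sq_nonneg (c : ℝ)]
    push_cast
    rw [abs_mul]
    have hs' : |(s : ℝ)| = 1 := by rcases hs with rfl | rfl <;> norm_num
    rw [hs', one_mul]
    have hc' : (c : ℝ) ≤ 3 * (2 * N) + 1 := by exact_mod_cast hc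
    have hc0 : (0 : ℝ) ≤ c := Nat.cast_nonneg c
    have h4 : (c : ℝ) ≤ 7 * N := by linarith
    have h5 : (c : ℝ) ^ 2 ≤ (7 * N) ^ 2 := by gcongr
    have h6 := abs_le.1 hq
    rw [abs_le]
    constructor <;> nlinarith [h6.1, h6.2]
  have h2 : ‖(v ^ (-((2 : ℕ) * ((N : ℤ) ^ 2 - 1)))) ^ p‖ ≤ 2 := by
    apply hpow _ _ hpM
    push_cast
    rw [abs_neg, abs_of_nonneg (by nlinarith)]
    nlinarith
  have h3 := chi_bound h hv hp hc
  unfold f2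
  rw [norm_mul, mul_pow, norm_mul]
  have hNp : (0 : ℝ) ≤ (N : ℝ) ^ p := by positivity
  calc ‖gg N s v c ^ m‖ * (‖(v ^ (-((2 : ℕ) * ((N : ℤ) ^ 2 - 1)))) ^ p‖ * ‖chi v N c ^ p‖)
      ≤ 2 * (2 * (2 * (N : ℝ) ^ p)) := by gcongr
    _ = _ := by ring

/-- **twist regions of two strands with circles** -/
theorem aug_sharp (ε : ℝ) (hε : 0 < ε) : ∀ᶠ N : ℕ in atTop,
    ∀ (σ : Bool) (m p : ℕ) (s0 t0 : Tp N 2), ‖X2 σ N m p (rt N) s0 t0‖ ≤
      (N : ℝ) ^ p * (((m + p : ℕ) : ℝ) + 1) ^ 73 * Real.exp (N * (BS 2 / (2 * π) + ε)) := by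
  have hpi := Real.pi_pos
  filter_upwards [core 2 le_rfl (ε / 2) (by positivity), eight_le (ε / 2) (by positivity),
    eventually_ge_atTop 2] with N hcore h8 hN2 σ m p s0 t0
  have hv := Pool.Agent.W613.QAT.rt_ne N
  have hN : ∀ k : ℕ, 0 < k → k < N → br (rt N) k ≠ 0 := Pool.Agent.W613.QAT.br_rt
  have h := hcore (m + p) (8 * (N : ℝ) ^ p) (by positivity) (fun w => X2 σ N m p w)
    (fun v => f2 N (sg σ) m p v) s0 t0
    (X2_diff hv hN σ m p s0 t0).continuousAt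
    (fun u hu => X2_sc hu σ N m p)
    (fun l hl => reg_f2 (sg_or σ) m p (m + p) t0 hl)
    (fun ρ hρ v hv c hc _ =>
      f2_bound hρ (Nat.le_add_right m p) (Nat.le_add_left p m) hv (sg_or σ) hc)
  refine h.trans ?_
  have e1 : Real.exp (N * (BS 2 / (2 * π) + ε)) =
      Real.exp (ε / 2 * N) * Real.exp (N * (BS 2 / (2 * π) + ε / 2)) := by
    rw [← Real.exp_add]
    congr 1
    ring
  rw [e1]
  have hE : 0 < Real.exp (N * (BS 2 / (2 * π) + ε / 2)) := Real.exp_pos _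
  have hP : 0 ≤ (((m + p : ℕ) : ℝ) + 1) ^ 73 := by positivity
  have hNp : 0 ≤ (N : ℝ) ^ p := by positivity
  calc 8 * (N : ℝ) ^ p * (((m + p : ℕ) : ℝ) + 1) ^ 73 *
        Real.exp (N * (BS 2 / (2 * π) + ε / 2))
      = 8 * ((N : ℝ) ^ p * (((m + p : ℕ) : ℝ) + 1) ^ 73 *
        Real.exp (N * (BS 2 / (2 * π) + ε / 2))) := by ring
    _ ≤ Real.exp (ε / 2 * N) * ((N : ℝ) ^ p * (((m + p : ℕ) : ℝ) + 1) ^ 73 *
        Real.exp (N * (BS 2 / (2 * π) + ε / 2))) := by gcongr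
    _ = _ := by ring

end Pool.Agent.Q191.SH
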